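import Pool.Agent.Lib.P697e97.Base

/-!
`Sym(ℕ)` is a product of 40 abelian subgroups (Abert's theorem, weak constant).
Step 1: for `M` infinite with infinite complement the group of the permutations supported on `M`
is contained in a product of 8 abelian groups.  Model: `Ω = Γ × Γ`, `Γ = ℤ × ℤ`, shears in the two
directions and one permutation `t` supported on `Γ × 0`.
Step 2: `Perm ℕ = G₁ G₂ G₁ G₂` with `G_i = Sym(M_i)`, `M₁ = {n % 3 ≠ 1}`, `M₂ = {n % 3 ≠ 2}`.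
-/

set_option autoImplicit false

namespace P697e97

namespace Abert

/-- permutations supported on `M` -/
def Su {X : Type*} (M : Set X) : Set (Equiv.Perm X) := {σ | ∀ x, x ∉ M → σ x = x}

theorem AP.mono {M : Type*} [Monoid M] {n : ℕ} {S T : Set M} (h : S ⊆ T) (hT : AP n T) :
    AP n S := by
  obtain ⟨C, h1, h2⟩ := hT
  exact ⟨C, h1, fun m hm => h2 m (h hm)⟩

theorem AP.mul {M : Type*} [Monoid M] {m n : ℕ} {S T : Set M} (hS : AP m S) (hT : AP n T) :
    AP (m + n) {x | ∃ s ∈ S, ∃ t ∈ T, x = s * t} := by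
  obtain ⟨C, hC, hS⟩ := hS
  obtain ⟨D, hD, hT⟩ := hT
  refine ⟨Fin.append C D, ?_, ?_⟩
  · intro i
    refine Fin.addCases (fun i => ?_) (fun i => ?_) i
    · rw [Fin.append_left]
      exact hC i
    · rw [Fin.append_right]
      exact hD i
  · rintro x ⟨s, hs, t, ht, rfl⟩
    obtain ⟨c, hc, hcs⟩ := hS s hs
    obtain ⟨d, hd, hdt⟩ := hT t ht
    refine ⟨Fin.append c d, ?_, ?_⟩
    · intro i
      refine Fin.addCases (fun i => ?_) (fun i => ?_) i
      · rw [Fin.append_left, Fin.append_left]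
        exact hc i
      · rw [Fin.append_right, Fin.append_right]
        exact hd i
    · rw [List.ofFn_fin_append, List.prod_append, hcs, hdt]

theorem AP.map {M N : Type*} [Monoid M] [Monoid N] (f : M →* N) {n : ℕ} {S : Set M}
    (hS : AP n S) : AP n (f '' S) := by
  obtain ⟨C, hC, hS⟩ := hS
  refine ⟨fun i => (C i).map f, ?_, ?_⟩
  · rintro i _ ⟨a, ha, rfl⟩ _ ⟨b, hb, rfl⟩
    rw [← map_mul, ← map_mul, hC i a ha b hb]
  · rintro _ ⟨s, hs, rfl⟩
    obtain ⟨c, hc, hcs⟩ := hS s hs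
    refine ⟨fun i => f (c i), fun i => ⟨c i, hc i, rfl⟩, ?_⟩
    rw [← hcs, map_list_prod, List.map_ofFn]
    rfl

/-! ### extension of injections -/

theorem ext_inj {X Y : Type*} [Countable X] [Countable Y] (U : Set X) (f : X → Y)
    (hf : Set.InjOn f U) (hU : Uᶜ.Infinite) (hV : (f '' U)ᶜ.Infinite) :
    ∃ σ : X ≃ Y, ∀ x ∈ U, σ x = f x := by
  classical
  have e1 : U ≃ f '' U := Equiv.Set.imageOfInjOn f U hf
  have : Infinite (Uᶜ : Set X) := hU.to_subtype
  have : Infinite ((f '' U)ᶜ : Set Y) := hV.to_subtype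
  obtain ⟨e2⟩ : Nonempty ((Uᶜ : Set X) ≃ ((f '' U)ᶜ : Set Y)) := by
    obtain ⟨i1⟩ := nonempty_denumerable (Uᶜ : Set X)
    obtain ⟨i2⟩ := nonempty_denumerable ((f '' U)ᶜ : Set Y)
    exact ⟨Denumerable.equiv₂ _ _⟩
  refine ⟨(Equiv.Set.sumCompl U).symm.trans
    ((Equiv.sumCongr (Equiv.Set.imageOfInjOn f U hf) e2).trans (Equiv.Set.sumCompl (f '' U))), ?_⟩
  intro x hx
  rw [Equiv.trans_apply, Equiv.trans_apply, Equiv.Set.sumCompl_symm_apply_of_mem hx]
  rfl

theorem ext_su {X : Type*} [Countable X] (M U : Set X) (f : X → X) (hU : U ⊆ M)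
    (hfM : ∀ x ∈ U, f x ∈ M) (hf : Set.InjOn f U) (h1 : (M \ U).Infinite)
    (h2 : (M \ (f '' U)).Infinite) : ∃ σ ∈ Su M, ∀ x ∈ U, σ x = f x := by
  classical
  suffices hs : ∃ σ : X ≃ X, ∀ x ∈ U ∪ Mᶜ, σ x = (fun x => if x ∈ M then f x else x) x by
    obtain ⟨σ, hσ⟩ := hs
    refine ⟨σ, ?_, ?_⟩
    · intro x hx
      rw [hσ x (Or.inr hx)]
      exact if_neg hx
    · intro x hx
      rw [hσ x (Or.inl hx)]
      exact if_pos (hU hx)
  refine ext_inj (U ∪ Mᶜ) (fun x => if x ∈ M then f x else x) ?_ ?_ ?_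
  · rintro x hx y hy hxy
    by_cases hxM : x ∈ M <;> by_cases hyM : y ∈ M
    · simp only [hxM, hyM, if_true] at hxy
      have hxU : x ∈ U := hx.resolve_right (fun h => h hxM)
      have hyU : y ∈ U := hy.resolve_right (fun h => h hyM)
      exact hf hxU hyU hxy
    · simp only [hxM, hyM, if_true, if_false] at hxy
      have hxU : x ∈ U := hx.resolve_right (fun h => h hxM)
      exact absurd (hxy ▸ hfM x hxU) hyM
    · simp only [hxM, hyM, if_true, if_false] at hxy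
      have hyU : y ∈ U := hy.resolve_right (fun h => h hyM)
      exact absurd (hxy ▸ hfM y hyU) hxM
    · simpa only [hxM, hyM, if_false] using hxy
  · refine h1.mono ?_
    rintro x ⟨hxM, hxU⟩ h
    rcases h with h | h
    · exact hxU h
    · exact h hxM
  · refine h2.mono ?_
    rintro x ⟨hxM, hxU⟩ ⟨y, hy, hyx⟩
    by_cases hyM : y ∈ M
    · simp only [hyM, if_true] at hyx
      exact hxU ⟨y, hy.resolve_right (fun h => h hyM), hyx⟩
    · simp only [hyM, if_false] at hyx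
      exact hyM (hyx ▸ hxM)

/-! ### Step 1 -/

abbrev Ga := ℤ × ℤ
abbrev Om := Ga × Ga

/-- vertical shears -/
def shA (α : Ga → Ga) : Equiv.Perm Om where
  toFun ω := (ω.1, ω.2 + α ω.1)
  invFun ω := (ω.1, ω.2 - α ω.1)
  left_inv ω := by simp
  right_inv ω := by simp

/-- horizontal shears -/
def shB (β : Ga → Ga) : Equiv.Perm Om where
  toFun ω := (ω.1 + β ω.2, ω.2)
  invFun ω := (ω.1 - β ω.2, ω.2)
  left_inv ω := by simp
  right_inv ω := by simp

def grA : Submonoid (Equiv.Perm Om) where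
  carrier := {σ | ∃ α : Ga → Ga, σ = shA α}
  one_mem' := ⟨0, by ext ω <;> simp [shA]⟩
  mul_mem' := by
    rintro _ _ ⟨α, rfl⟩ ⟨β, rfl⟩
    refine ⟨β + α, ?_⟩
    refine Equiv.ext fun ω => ?_
    simp [shA, add_assoc]

def grB : Submonoid (Equiv.Perm Om) where
  carrier := {σ | ∃ α : Ga → Ga, σ = shB α}
  one_mem' := ⟨0, by ext ω <;> simp [shB]⟩
  mul_mem' := by
    rintro _ _ ⟨α, rfl⟩ ⟨β, rfl⟩
    refine ⟨β + α, ?_⟩
    refine Equiv.ext fun ω => ?_
    simp [shB, add_assoc]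

theorem grA_comm : ∀ a ∈ grA, ∀ b ∈ grA, a * b = b * a := by
  rintro _ ⟨α, rfl⟩ _ ⟨β, rfl⟩
  refine Equiv.ext fun ω => ?_
  simp [shA, add_right_comm]

theorem grB_comm : ∀ a ∈ grB, ∀ b ∈ grB, a * b = b * a := by
  rintro _ ⟨α, rfl⟩ _ ⟨β, rfl⟩
  refine Equiv.ext fun ω => ?_
  simp [shB, add_right_comm]

theorem shA_inv (α : Ga → Ga) : (shA α)⁻¹ ∈ grA := by
  refine ⟨-α, Equiv.ext fun ω => ?_⟩
  show (ω.1, ω.2 - α ω.1) = (ω.1, ω.2 + (-α) ω.1)
  simp [sub_eq_add_neg]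

theorem shB_inv (α : Ga → Ga) : (shB α)⁻¹ ∈ grB := by
  refine ⟨-α, Equiv.ext fun ω => ?_⟩
  show (ω.1 - α ω.2, ω.2) = (ω.1 + (-α) ω.2, ω.2)
  simp [sub_eq_add_neg]

/-- the shift on `Γ × 0` -/
def tt : Equiv.Perm Om where
  toFun ω := if ω.2 = 0 then ((ω.1.1, ω.1.2 + 1), 0) else ω
  invFun ω := if ω.2 = 0 then ((ω.1.1, ω.1.2 - 1), 0) else ω
  left_inv ω := by
    rcases ω with ⟨⟨n, m⟩, y⟩
    by_cases h : y = 0 <;> simp [h]
  right_inv ω := by
    rcases ω with ⟨⟨n, m⟩, y⟩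
    by_cases h : y = 0 <;> simp [h]

/-- the permutation `F` -/
def FF (g : Equiv.Perm ℤ) : Equiv.Perm Ga where
  toFun x := (if 0 ≤ x.2 then g x.1 else x.1, x.2)
  invFun x := (if 0 ≤ x.2 then g.symm x.1 else x.1, x.2)
  left_inv x := by
    rcases x with ⟨n, m⟩
    by_cases h : 0 ≤ m <;> simp [h]
  right_inv x := by
    rcases x with ⟨n, m⟩
    by_cases h : 0 ≤ m <;> simp [h]

/-- the set `S` -/
def S0 : Set Om := {ω | ω.2 = 0 ∧ ω.1.2 = 0}

theorem su_form {h : Equiv.Perm Om} (hh : h ∈ Su S0) (n : ℤ) :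
    h ((n, 0), 0) = (((h ((n, 0), 0)).1.1, 0), 0) := by
  have h1 : h ((n, 0), 0) ∈ S0 := by
    by_contra hc
    have h2 := hh _ hc
    have h3 := h.injective h2
    rw [h3] at hc
    exact hc ⟨rfl, rfl⟩
  obtain ⟨h2, h3⟩ := h1
  rcases hx : h ((n, 0), 0) with ⟨⟨a, b⟩, c⟩
  rw [hx] at h2 h3
  simp only at h2 h3
  simp [h2, h3]

theorem su_inv {X : Type*} {M : Set X} {h : Equiv.Perm X} (hh : h ∈ Su M) : h⁻¹ ∈ Su M := by
  intro x hx
  have := hh x hx
  rw [Equiv.Perm.inv_eq_iff_eq, this]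

theorem su_mul {X : Type*} {M : Set X} {g h : Equiv.Perm X} (hg : g ∈ Su M) (hh : h ∈ Su M) :
    g * h ∈ Su M := by
  intro x hx
  rw [Equiv.Perm.mul_apply, hh x hx, hg x hx]

theorem exists_g {h : Equiv.Perm Om} (hh : h ∈ Su S0) :
    ∃ g : Equiv.Perm ℤ, ∀ n : ℤ, h ((n, 0), 0) = ((g n, 0), 0) := by
  refine ⟨⟨fun n => (h ((n, 0), 0)).1.1, fun n => (h⁻¹ ((n, 0), 0)).1.1, ?_, ?_⟩, ?_⟩
  · intro n
    show (h.symm (((h ((n, 0), 0)).1.1, 0), 0)).1.1 = n
    rw [← su_form hh, Equiv.symm_apply_apply]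
  · intro n
    show (h (((h⁻¹ ((n, 0), 0)).1.1, 0), 0)).1.1 = n
    rw [← su_form (su_inv hh)]
    show (h (h.symm ((n, 0), 0))).1.1 = n
    rw [Equiv.apply_symm_apply]
  · intro n
    exact su_form hh n

theorem key {h : Equiv.Perm Om} (hh : h ∈ Su S0) : ∃ a a' b : Ga → Ga,
    h = shA a' * shB b * shA a * tt * (shA a)⁻¹ * (shB b)⁻¹ * (shA a')⁻¹ * tt⁻¹ := by
  obtain ⟨g, hg⟩ := exists_g hh
  refine ⟨fun x => x, fun x => -(FF g).symm x, fun y => FF g y - y, ?_⟩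
  set p : Equiv.Perm Om := shA (fun x => -(FF g).symm x) * shB (fun y => FF g y - y) *
    shA (fun x => x) with hp
  have p0 : ∀ x : Ga, p (x, 0) = (FF g x, 0) := by
    intro x
    rw [hp]
    simp [shA, shB]
  have p1 : ∀ ω : Om, ω.2 ≠ 0 → (p ω).2 ≠ 0 := by
    intro ω hω h0
    have h1 : p ω = ((p ω).1, 0) := by rw [← h0]
    have h2 : p ω = p ((FF g).symm (p ω).1, 0) := by
      rw [p0, Equiv.apply_symm_apply]
      exact h1
    have h3 := p.injective h2
    rw [h3] at hω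
    exact hω rfl
  have t0 : ∀ n m : ℤ, tt ((n, m), 0) = ((n, m + 1), 0) := by
    intro n m
    simp [tt]
  have t1 : ∀ ω : Om, ω.2 ≠ 0 → tt ω = ω := by
    intro ω hω
    simp [tt, hω]
  have main : h * tt * p = p * tt := by
    refine Equiv.ext fun ω => ?_
    show h (tt (p ω)) = p (tt ω)
    by_cases hω : ω.2 = 0
    · rcases ω with ⟨⟨n, m⟩, y⟩
      simp only at hω
      subst hω
      rw [t0, p0, p0]
      have e1 : FF g (n, m) = (if 0 ≤ m then g n else n, m) := rfl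
      have e2 : FF g (n, m + 1) = (if 0 ≤ m + 1 then g n else n, m + 1) := rfl
      rw [e1, e2, t0]
      by_cases hm : m + 1 = 0
      · have hm' : ¬ (0 ≤ m) := by omega
        rw [hm, if_neg hm', if_pos le_rfl, hg]
      · have h1 : h ((if 0 ≤ m then g n else n, m + 1), 0) =
            ((if 0 ≤ m then g n else n, m + 1), 0) := hh _ (fun hc => hm hc.2)
        rw [h1]
        by_cases hm2 : 0 ≤ m
        · rw [if_pos hm2, if_pos (by omega)]
        · rw [if_neg hm2, if_neg (by omega)]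
    · rw [t1 ω hω, t1 _ (p1 ω hω)]
      exact hh _ (fun hc => p1 ω hω hc.1)
  have e3 : p * tt * (shA (fun x => x))⁻¹ * (shB (fun y => FF g y - y))⁻¹ *
      (shA (fun x => -(FF g).symm x))⁻¹ * tt⁻¹ = h := by
    have : p * tt * (shA (fun x => x))⁻¹ * (shB (fun y => FF g y - y))⁻¹ *
      (shA (fun x => -(FF g).symm x))⁻¹ * tt⁻¹ = p * tt * p⁻¹ * tt⁻¹ := by
      rw [hp]
      simp only [mul_inv_rev, mul_assoc]
    rw [this, ← main]
    group
  exact e3.symm

theorem AP_S0 : AP 8 (Su S0) := by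
  refine ⟨![grA, grB, grA, (Subgroup.zpowers tt).toSubmonoid, grA, grB, grA,
    (Subgroup.zpowers tt).toSubmonoid], ?_, ?_⟩
  · have hz : ∀ a ∈ (Subgroup.zpowers tt).toSubmonoid, ∀ b ∈ (Subgroup.zpowers tt).toSubmonoid,
        a * b = b * a := by
      rintro _ ⟨m, rfl⟩ _ ⟨n, rfl⟩
      exact (Commute.zpow_zpow_self tt m n).eq
    intro i
    fin_cases i
    · exact grA_comm
    · exact grB_comm
    · exact grA_comm
    · exact hz
    · exact grA_comm
    · exact grB_comm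
    · exact grA_comm
    · exact hz
  · intro h hh
    obtain ⟨a, a', b, hab⟩ := key hh
    refine ⟨![shA a', shB b, shA a, tt, (shA a)⁻¹, (shB b)⁻¹, (shA a')⁻¹, tt⁻¹], ?_, ?_⟩
    · have hz : tt ∈ (Subgroup.zpowers tt).toSubmonoid := Subgroup.mem_zpowers tt
      have hz' : tt⁻¹ ∈ (Subgroup.zpowers tt).toSubmonoid :=
        (Subgroup.zpowers tt).inv_mem (Subgroup.mem_zpowers tt)
      intro i
      fin_cases i
      · exact ⟨a', rfl⟩
      · exact ⟨b, rfl⟩
      · exact ⟨a, rfl⟩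
      · exact hz
      · exact shA_inv a
      · exact shB_inv b
      · exact shA_inv a'
      · exact hz'
    · rw [hab]
      simp [List.ofFn_succ, mul_assoc]

theorem S0_inf : S0.Infinite := by
  have : Function.Injective (fun n : ℤ => (((n, 0), 0) : Om)) := by
    intro a b hab
    simpa using hab
  refine (Set.infinite_range_of_injective this).mono ?_
  rintro _ ⟨n, rfl⟩
  exact ⟨rfl, rfl⟩

theorem S0_coinf : (S0ᶜ).Infinite := by
  have : Function.Injective (fun n : ℤ => (((n, 1), 0) : Om)) := by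
    intro a b hab
    simpa using hab
  refine (Set.infinite_range_of_injective this).mono ?_
  rintro _ ⟨n, rfl⟩ h
  exact absurd h.2 (by norm_num)

theorem AP_su (M : Set ℕ) (h1 : M.Infinite) (h2 : Mᶜ.Infinite) : AP 8 (Su M) := by
  classical
  have : Infinite S0 := S0_inf.to_subtype
  have : Infinite M := h1.to_subtype
  obtain ⟨e⟩ : Nonempty (S0 ≃ M) := by
    obtain ⟨i1⟩ := nonempty_denumerable S0
    obtain ⟨i2⟩ := nonempty_denumerable M
    exact ⟨Denumerable.equiv₂ _ _⟩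
  set f : Om → ℕ := fun ω => if h : ω ∈ S0 then (e ⟨ω, h⟩ : ℕ) else 0 with hf
  have hfe : ∀ ω (h : ω ∈ S0), f ω = e ⟨ω, h⟩ := by
    intro ω h
    rw [hf]
    simp only [h, dif_pos]
  have him : f '' S0 = M := by
    ext x
    constructor
    · rintro ⟨ω, hω, rfl⟩
      rw [hfe ω hω]
      exact (e ⟨ω, hω⟩).2
    · intro hx
      refine ⟨(e.symm ⟨x, hx⟩ : S0), (e.symm ⟨x, hx⟩).2, ?_⟩
      rw [hfe _ (e.symm ⟨x, hx⟩).2]
      simp
  have hinj : Set.InjOn f S0 := by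
    intro x hx y hy hxy
    rw [hfe x hx, hfe y hy] at hxy
    have := e.injective (Subtype.ext hxy)
    exact congrArg Subtype.val this
  obtain ⟨ψ, hψ⟩ := ext_inj S0 f hinj S0_coinf (by rw [him]; exact h2)
  have hM : ∀ ω, ψ ω ∈ M ↔ ω ∈ S0 := by
    intro ω
    constructor
    · intro h
      rw [← him] at h
      obtain ⟨ω', h', h''⟩ := h
      rw [← hψ ω' h'] at h''
      rw [← ψ.injective h'']
      exact h'
    · intro h
      rw [hψ ω h, ← him]
      exact ⟨ω, h, rfl⟩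
  have hhom : ∀ p q : Equiv.Perm Om, ψ.permCongr (p * q) = ψ.permCongr p * ψ.permCongr q :=
    fun p q => Equiv.permCongr_mul ψ p q
  let Φ : Equiv.Perm Om →* Equiv.Perm ℕ := MonoidHom.mk' (fun p => ψ.permCongr p) hhom
  refine AP.mono ?_ (AP.map Φ AP_S0)
  intro k hk
  refine ⟨ψ.symm.permCongr k, ?_, ?_⟩
  · intro ω hω
    rw [Equiv.permCongr_apply, Equiv.symm_symm, hk _ (fun h => hω ((hM ω).1 h)),
      Equiv.symm_apply_apply]
  · refine Equiv.ext fun x => ?_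
    show ψ.permCongr (ψ.symm.permCongr k) x = k x
    simp [Equiv.permCongr_apply]

/-! ### Step 2 -/

def M1 : Set ℕ := {n | n % 3 ≠ 1}
def M2 : Set ℕ := {n | n % 3 ≠ 2}

theorem inf_of (r : ℕ) (_hr : r < 6) {S : Set ℕ} (h : ∀ n, 6 * n + r ∈ S) : S.Infinite := by
  have : Function.Injective (fun n : ℕ => 6 * n + r) := by
    intro a b hab
    simp only at hab
    omega
  refine (Set.infinite_range_of_injective this).mono ?_
  rintro _ ⟨n, rfl⟩
  exact h n

theorem phi_inj (U : Set ℕ) : Set.InjOn (fun n : ℕ => 6 * n) U := by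
  intro a _ b _ hab
  simp only at hab
  omega

theorem caseA (g : Equiv.Perm ℕ) (hg : (M2 \ (g '' M2ᶜ)).Infinite) :
    ∃ a ∈ Su M2, ∃ b ∈ Su M1, ∃ c ∈ Su M2, g = a * (b * c) := by
  obtain ⟨σ₂, h21, h22⟩ := ext_su M2 (g '' M2ᶜ ∩ M2) (fun n => 6 * n) Set.inter_subset_right
    (by intro x _; show 6 * x % 3 ≠ 2; omega) (phi_inj _)
    (hg.mono (by rintro x ⟨hx, hx'⟩; exact ⟨hx, fun h => hx' h.1⟩))
    (inf_of 1 (by norm_num) (by
      intro n
      refine ⟨by show (6 * n + 1) % 3 ≠ 2; omega, ?_⟩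
      rintro ⟨y, -, hy⟩
      simp only at hy
      omega))
  have hval : ∀ p ∈ M2ᶜ, (σ₂ * g) p ∈ M1 ∧ ∀ n, (σ₂ * g) p ≠ 6 * n + 3 := by
    intro p hp
    rw [Equiv.Perm.mul_apply]
    by_cases hM : g p ∈ M2
    · rw [h22 (g p) ⟨⟨p, hp, rfl⟩, hM⟩]
      refine ⟨by show 6 * g p % 3 ≠ 1; omega, fun n h => ?_⟩
      omega
    · rw [h21 (g p) hM]
      have h3 : g p % 3 = 2 := by
        by_contra hc
        exact hM hc
      refine ⟨by show g p % 3 ≠ 1; omega, fun n h => ?_⟩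
      omega
  obtain ⟨σ₁, h11, h12⟩ := ext_su M1 ((σ₂ * g) '' M2ᶜ) (σ₂ * g).symm
    (by rintro _ ⟨p, hp, rfl⟩; exact (hval p hp).1)
    (by
      rintro _ ⟨p, hp, rfl⟩
      rw [Equiv.symm_apply_apply]
      have h3 : p % 3 = 2 := by
        by_contra hc
        exact hp hc
      show p % 3 ≠ 1
      omega)
    ((σ₂ * g).symm.injective.injOn)
    (inf_of 3 (by norm_num) (by
      intro n
      refine ⟨by show (6 * n + 3) % 3 ≠ 1; omega, ?_⟩
      rintro ⟨y, hy, hy'⟩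
      exact (hval y hy).2 n hy'))
    (inf_of 0 (by norm_num) (by
      intro n
      refine ⟨by show (6 * n + 0) % 3 ≠ 1; omega, ?_⟩
      rintro ⟨_, ⟨p, hp, rfl⟩, hy'⟩
      rw [Equiv.symm_apply_apply] at hy'
      apply hp
      show p % 3 ≠ 2
      omega))
  refine ⟨σ₂⁻¹, su_inv h21, σ₁⁻¹, su_inv h11, σ₁ * (σ₂ * g), ?_, ?_⟩
  · intro x hx
    rw [Equiv.Perm.mul_apply, h12 _ ⟨x, hx, rfl⟩, Equiv.symm_apply_apply]
  · group

theorem caseB (g : Equiv.Perm ℕ) : ∃ σ ∈ Su M1, (M2 \ ((σ * g) '' M2ᶜ)).Infinite := by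
  by_cases hA : (M2 \ (g '' M2ᶜ)).Infinite
  · exact ⟨1, fun x _ => rfl, by rwa [one_mul]⟩
  · have hc : ((g '' M2ᶜ)ᶜ).Infinite := by
      have h1 : (g '' M2).Infinite := by
        refine Set.Infinite.image g.injective.injOn ?_
        exact inf_of 0 (by norm_num) (by intro n; show (6 * n + 0) % 3 ≠ 2; omega)
      refine h1.mono ?_
      rintro _ ⟨x, hx, rfl⟩ ⟨y, hy, hxy⟩
      rw [g.injective hxy] at hy
      exact hy hx
    have hB : (M1 \ (g '' M2ᶜ)).Infinite := by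
      rw [Set.not_infinite] at hA
      by_contra hB
      rw [Set.not_infinite] at hB
      apply hc
      refine (hA.union hB).subset ?_
      intro x hx
      by_cases h : x ∈ M2
      · exact Or.inl ⟨h, hx⟩
      · refine Or.inr ⟨?_, hx⟩
        have h3 : x % 3 = 2 := by
          by_contra hc
          exact h hc
        show x % 3 ≠ 1
        omega
    obtain ⟨σ, h1, h2⟩ := ext_su M1 (g '' M2ᶜ ∩ M1) (fun n => 6 * n) Set.inter_subset_right
      (by intro x _; show 6 * x % 3 ≠ 1; omega) (phi_inj _)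
      (hB.mono (by rintro x ⟨hx, hx'⟩; exact ⟨hx, fun h => hx' h.1⟩))
      (inf_of 3 (by norm_num) (by
        intro n
        refine ⟨by show (6 * n + 3) % 3 ≠ 1; omega, ?_⟩
        rintro ⟨y, -, hy⟩
        simp only at hy
        omega))
    refine ⟨σ, h1, inf_of 3 (by norm_num) ?_⟩
    intro n
    refine ⟨by show (6 * n + 3) % 3 ≠ 2; omega, ?_⟩
    rintro ⟨p, hp, hpn⟩
    rw [Equiv.Perm.mul_apply] at hpn
    by_cases hM : g p ∈ M1
    · rw [h2 (g p) ⟨⟨p, hp, rfl⟩, hM⟩] at hpn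
      omega
    · rw [h1 (g p) hM] at hpn
      apply hM
      rw [hpn]
      show (6 * n + 3) % 3 ≠ 1
      omega

end Abert

open Abert in
theorem perm_nat_AP : AP 40 (Set.univ : Set (Equiv.Perm ℕ)) := by
  have hM1 : AP 8 (Su M1) := AP_su M1
    (inf_of 0 (by norm_num) (by intro n; show (6 * n + 0) % 3 ≠ 1; omega))
    (inf_of 1 (by norm_num) (by
      intro n h
      have h' : (6 * n + 1) % 3 ≠ 1 := h
      omega))
  have hM2 : AP 8 (Su M2) := AP_su M2
    (inf_of 0 (by norm_num) (by intro n; show (6 * n + 0) % 3 ≠ 2; omega))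
    (inf_of 2 (by norm_num) (by
      intro n h
      have h' : (6 * n + 2) % 3 ≠ 2 := h
      omega))
  have h40 := AP.mul hM2 (AP.mul hM1 (AP.mul hM2 (AP.mul hM1 hM2)))
  refine AP.mono ?_ h40
  intro g _
  obtain ⟨σ, hσ, hinf⟩ := caseB g
  obtain ⟨a, ha, b, hb, c, hc, habc⟩ := caseA (σ * g) hinf
  refine ⟨1, fun x _ => rfl, g, ?_, (one_mul g).symm⟩
  refine ⟨σ⁻¹, su_inv hσ, σ * g, ?_, by group⟩
  exact ⟨a, ha, b * c, ⟨b, hb, c, hc, rfl⟩, habc⟩

end P697e97
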