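import Pool.Agent.Lib.P697e97.Base

/-!
Two generic automorphisms `g`, `g'` of a `Sys` are equal up to the action of `Sym(ℕ)` on both
sides (back-and-forth).  A state consists of finite sets `F₁`, `F₂` and permutations `σ₁`, `σ₂`
with `Maps g F₁ F₂` and `g' (σ₁ v) = σ₂ (g v)` for all `v` with `supp v ⊆ F₁`.
-/

set_option autoImplicit false

namespace P697e97

namespace Sys

/-- A state of the back-and-forth construction. -/
structure BfState (S : Sys) (g g' : S.G ≃g S.G) where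
  /-- the first finite set -/
  F₁ : Finset ℕ
  /-- the second finite set -/
  F₂ : Finset ℕ
  /-- the first permutation -/
  σ₁ : Equiv.Perm ℕ
  /-- the second permutation -/
  σ₂ : Equiv.Perm ℕ
  maps : S.Maps g F₁ F₂
  comm : ∀ v, S.supp v ⊆ F₁ → g' (S.act σ₁ v) = S.act σ₂ (g v)

variable {S : Sys} {g g' : S.G ≃g S.G}

theorem bf_act_inv (σ : Equiv.Perm ℕ) (v : S.V) : S.act σ⁻¹ (S.act σ v) = v := by
  rw [← RelIso.mul_apply, ← map_mul]
  simp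

theorem bf_inv_act (σ : Equiv.Perm ℕ) (v : S.V) : S.act σ (S.act σ⁻¹ v) = v := by
  rw [← RelIso.mul_apply, ← map_mul]
  simp

theorem bf_supp (σ : Equiv.Perm ℕ) (v : S.V) (F : Finset ℕ) :
    S.supp (S.act σ v) ⊆ F.map σ.toEmbedding ↔ S.supp v ⊆ F := by
  rw [S.supp_act, Finset.map_subset_map]

theorem bf_supp_inv (σ : Equiv.Perm ℕ) (v : S.V) (F : Finset ℕ) :
    S.supp (S.act σ⁻¹ v) ⊆ F ↔ S.supp v ⊆ F.map σ.toEmbedding := by
  rw [← bf_supp σ, bf_inv_act]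

theorem bf_act_congr {α β : Equiv.Perm ℕ} {v : S.V} (h : ∀ i ∈ S.supp v, α i = β i) :
    S.act α v = S.act β v := by
  have h1 : S.act (β⁻¹ * α) v = v := by
    apply S.act_fix
    intro i hi
    rw [Equiv.Perm.mul_apply, h i hi]
    simp
  have h2 : α = β * (β⁻¹ * α) := by group
  rw [h2, map_mul, RelIso.mul_apply, h1]

/-- The state gives `Maps g'` for the image sets. -/
theorem BfState.maps' (s : S.BfState g g') :
    S.Maps g' (s.F₁.map s.σ₁.toEmbedding) (s.F₂.map s.σ₂.toEmbedding) := by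
  intro v
  constructor
  · intro h
    have h1 : S.supp (S.act s.σ₁⁻¹ v) ⊆ s.F₁ := (bf_supp_inv _ _ _).2 h
    have h2 := s.comm _ h1
    rw [bf_inv_act] at h2
    rw [h2, bf_supp]
    exact (s.maps _).1 h1
  · intro h
    have h1 : S.supp (S.act s.σ₂⁻¹ (g' v)) ⊆ s.F₂ := (bf_supp_inv _ _ _).2 h
    have e : g (g.symm (S.act s.σ₂⁻¹ (g' v))) = S.act s.σ₂⁻¹ (g' v) := g.apply_symm_apply _
    have h2 : S.supp (g.symm (S.act s.σ₂⁻¹ (g' v))) ⊆ s.F₁ := (s.maps _).2 (by rw [e]; exact h1)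
    have h3 := s.comm _ h2
    rw [e, bf_inv_act] at h3
    have h4 := g'.injective h3
    rw [← h4, bf_supp]
    exact h2

/-- The inverse state. -/
def BfState.inv (s : S.BfState g g') : S.BfState g' g where
  F₁ := s.F₁.map s.σ₁.toEmbedding
  F₂ := s.F₂.map s.σ₂.toEmbedding
  σ₁ := s.σ₁⁻¹
  σ₂ := s.σ₂⁻¹
  maps := s.maps'
  comm := by
    intro v hv
    have h1 : S.supp (S.act s.σ₁⁻¹ v) ⊆ s.F₁ := (bf_supp_inv _ _ _).2 hv
    have h2 := s.comm _ h1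
    rw [bf_inv_act] at h2
    rw [h2, bf_act_inv]

/-- The order on states. -/
structure BfState.Le (s t : S.BfState g g') : Prop where
  l1 : s.F₁ ⊆ t.F₁
  l2 : s.F₂ ⊆ t.F₂
  e1 : ∀ i ∈ s.F₁, t.σ₁ i = s.σ₁ i
  e2 : ∀ i ∈ s.F₂, t.σ₂ i = s.σ₂ i

theorem BfState.Le.refl (s : S.BfState g g') : s.Le s :=
  ⟨subset_rfl, subset_rfl, fun _ _ => rfl, fun _ _ => rfl⟩

theorem BfState.Le.trans {s t u : S.BfState g g'} (h : s.Le t) (h' : t.Le u) : s.Le u :=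
  ⟨h.l1.trans h'.l1, h.l2.trans h'.l2, fun i hi => (h'.e1 i (h.l1 hi)).trans (h.e1 i hi),
    fun i hi => (h'.e2 i (h.l2 hi)).trans (h.e2 i hi)⟩

/-- The forward step. -/
theorem BfState.forward (hg : S.Gen g) (hg' : S.Gen g') (s : S.BfState g g') (F : Finset ℕ) :
    ∃ t : S.BfState g g', s.Le t ∧ F ⊆ t.F₁ ∧ F ⊆ t.F₂ := by
  obtain ⟨F₁', F₂', h1, h2, hm⟩ := hg.g1 (F ∪ s.F₁ ∪ s.F₂)
  have a1 : F ⊆ F₁' := fun i hi => h1 (by simp [hi])
  have a2 : F ⊆ F₂' := fun i hi => h2 (by simp [hi])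
  have b1 : s.F₁ ⊆ F₁' := fun i hi => h1 (by simp [hi])
  have b2 : s.F₂ ⊆ F₂' := fun i hi => h2 (by simp [hi])
  have hf : ∀ v, (S.act s.σ₂ * g * (S.act s.σ₁)⁻¹) v = S.act s.σ₂ (g (S.act s.σ₁⁻¹ v)) := by
    intro v
    rw [map_inv]
    rfl
  obtain ⟨ρ₁, ρ₂, r1, r2, r3⟩ := hg'.g2 (s.F₁.map s.σ₁.toEmbedding) (s.F₂.map s.σ₂.toEmbedding)
    (F₁'.map s.σ₁.toEmbedding) (F₂'.map s.σ₂.toEmbedding) (Finset.map_subset_map.2 b1)
    (Finset.map_subset_map.2 b2) (S.act s.σ₂ * g * (S.act s.σ₁)⁻¹) s.maps'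
    (fun v => by rw [hf, bf_supp, ← hm, bf_supp_inv])
    (fun v hv => by
      have h3 : S.supp (S.act s.σ₁⁻¹ v) ⊆ s.F₁ := (bf_supp_inv _ _ _).2 hv
      have h4 := s.comm _ h3
      rw [bf_inv_act] at h4
      rw [hf, h4])
  refine ⟨⟨F₁', F₂', ρ₁ * s.σ₁, ρ₂ * s.σ₂, hm, fun v hv => ?_⟩, ⟨b1, b2, fun i hi => ?_,
    fun i hi => ?_⟩, a1, a2⟩
  · have h3 := r3 (S.act s.σ₁ v) ((bf_supp _ _ _).2 hv)
    rw [hf, bf_act_inv] at h3
    rw [map_mul, map_mul, RelIso.mul_apply, RelIso.mul_apply]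
    exact h3
  · exact r1 _ (Finset.mem_map.2 ⟨i, hi, rfl⟩)
  · exact r2 _ (Finset.mem_map.2 ⟨i, hi, rfl⟩)

theorem BfState.inv_le {s : S.BfState g g'} {t : S.BfState g' g} (h : s.inv.Le t) :
    s.Le t.inv := by
  have k1 : ∀ i ∈ s.F₁, t.σ₁ (s.σ₁ i) = i := by
    intro i hi
    have h1 := h.e1 (s.σ₁ i) (Finset.mem_map.2 ⟨i, hi, rfl⟩)
    rw [h1]
    show s.σ₁⁻¹ (s.σ₁ i) = i
    simp
  have k2 : ∀ i ∈ s.F₂, t.σ₂ (s.σ₂ i) = i := by
    intro i hi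
    have h1 := h.e2 (s.σ₂ i) (Finset.mem_map.2 ⟨i, hi, rfl⟩)
    rw [h1]
    show s.σ₂⁻¹ (s.σ₂ i) = i
    simp
  refine ⟨fun i hi => ?_, fun i hi => ?_, fun i hi => ?_, fun i hi => ?_⟩
  · exact Finset.mem_map.2 ⟨s.σ₁ i, h.l1 (Finset.mem_map.2 ⟨i, hi, rfl⟩), k1 i hi⟩
  · exact Finset.mem_map.2 ⟨s.σ₂ i, h.l2 (Finset.mem_map.2 ⟨i, hi, rfl⟩), k2 i hi⟩
  · show t.σ₁⁻¹ i = s.σ₁ i
    rw [Equiv.Perm.inv_eq_iff_eq]
    exact (k1 i hi).symm
  · show t.σ₂⁻¹ i = s.σ₂ i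
    rw [Equiv.Perm.inv_eq_iff_eq]
    exact (k2 i hi).symm

theorem bf_map_inv (σ : Equiv.Perm ℕ) (F : Finset ℕ) :
    (F.map σ.toEmbedding).map (σ⁻¹).toEmbedding = F := by
  ext i
  simp only [Finset.mem_map, exists_exists_and_eq_and]
  constructor
  · rintro ⟨j, hj, rfl⟩
    simpa using hj
  · intro hi
    exact ⟨i, hi, by simp⟩

/-- Both steps. -/
theorem BfState.step (hg : S.Gen g) (hg' : S.Gen g') (s : S.BfState g g') (F : Finset ℕ) :
    ∃ t : S.BfState g g', s.Le t ∧ F ⊆ t.F₁ ∧ F ⊆ t.F₂ ∧ F ⊆ t.F₁.map t.σ₁.toEmbedding ∧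
      F ⊆ t.F₂.map t.σ₂.toEmbedding := by
  obtain ⟨t, ht, h1, h2⟩ := s.forward hg hg' F
  obtain ⟨u, hu, h3, h4⟩ := t.inv.forward hg' hg F
  have hu' := BfState.inv_le hu
  refine ⟨u.inv, ht.trans hu', h1.trans hu'.l1, h2.trans hu'.l2, ?_, ?_⟩
  · show F ⊆ (u.F₁.map u.σ₁.toEmbedding).map (u.σ₁⁻¹).toEmbedding
    rw [bf_map_inv]
    exact h3
  · show F ⊆ (u.F₂.map u.σ₂.toEmbedding).map (u.σ₂⁻¹).toEmbedding
    rw [bf_map_inv]
    exact h4

/-- The limit of a coherent sequence of permutations. -/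
theorem bf_lim (F : ℕ → Finset ℕ) (p : ℕ → Equiv.Perm ℕ) (hF : ∀ m n, m ≤ n → F m ⊆ F n)
    (hp : ∀ m n, m ≤ n → ∀ i ∈ F m, p n i = p m i) (h1 : ∀ n, n ∈ F (n + 1))
    (h2 : ∀ n, n ∈ (F (n + 1)).map (p (n + 1)).toEmbedding) :
    ∃ τ : Equiv.Perm ℕ, ∀ n, ∀ i ∈ F n, τ i = p n i := by
  have key : ∀ n, ∀ i ∈ F n, p (i + 1) i = p n i := by
    intro n i hi
    rw [← hp n (max n (i + 1)) (le_max_left _ _) i hi,
      ← hp (i + 1) (max n (i + 1)) (le_max_right _ _) i (h1 i)]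
  have hinj : Function.Injective fun i => p (i + 1) i := by
    intro i j hij
    have hi : i ∈ F (max (i + 1) (j + 1)) := hF _ _ (le_max_left _ _) (h1 i)
    have hj : j ∈ F (max (i + 1) (j + 1)) := hF _ _ (le_max_right _ _) (h1 j)
    have h : p (i + 1) i = p (j + 1) j := hij
    rw [key _ i hi, key _ j hj] at h
    exact (p _).injective h
  have hsurj : Function.Surjective fun i => p (i + 1) i := by
    intro n
    obtain ⟨i, hi, e⟩ := Finset.mem_map.1 (h2 n)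
    refine ⟨i, ?_⟩
    show p (i + 1) i = n
    rw [key _ i hi]
    exact e
  exact ⟨Equiv.ofBijective _ ⟨hinj, hsurj⟩, fun n i hi => key n i hi⟩

/-- The first state. -/
def bfStart (hsupp : ∀ v, S.supp v ≠ ∅) (g g' : S.G ≃g S.G) : S.BfState g g' where
  F₁ := ∅
  F₂ := ∅
  σ₁ := 1
  σ₂ := 1
  maps := fun v => ⟨fun h => absurd (Finset.subset_empty.1 h) (hsupp v),
    fun h => absurd (Finset.subset_empty.1 h) (hsupp _)⟩
  comm := fun v h => absurd (Finset.subset_empty.1 h) (hsupp v)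

end Sys

theorem Sys.Gen.conj {S : Sys} (hsupp : ∀ v, S.supp v ≠ ∅) {g g' : S.G ≃g S.G} (hg : S.Gen g)
    (hg' : S.Gen g') :
    ∃ σ τ : Equiv.Perm ℕ, g' * S.act τ = S.act σ * g := by
  classical
  choose next hnext using fun (s : S.BfState g g') (F : Finset ℕ) => s.step hg hg' F
  let s : ℕ → S.BfState g g' := fun n =>
    Nat.rec (Sys.bfStart hsupp g g') (fun n t => next t {n}) n
  have hs : ∀ n, s (n + 1) = next (s n) {n} := fun n => rfl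
  have hle : ∀ m n, m ≤ n → (s m).Le (s n) := by
    intro m n hmn
    induction n, hmn using Nat.le_induction with
    | base => exact Sys.BfState.Le.refl _
    | succ n _ ih =>
      refine ih.trans ?_
      rw [hs]
      exact (hnext (s n) {n}).1
  have hn : ∀ n, n ∈ (s (n + 1)).F₁ ∧ n ∈ (s (n + 1)).F₂ ∧
      n ∈ (s (n + 1)).F₁.map (s (n + 1)).σ₁.toEmbedding ∧
      n ∈ (s (n + 1)).F₂.map (s (n + 1)).σ₂.toEmbedding := by
    intro n
    rw [hs]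
    obtain ⟨-, h1, h2, h3, h4⟩ := hnext (s n) {n}
    exact ⟨h1 (Finset.mem_singleton_self n), h2 (Finset.mem_singleton_self n),
      h3 (Finset.mem_singleton_self n), h4 (Finset.mem_singleton_self n)⟩
  obtain ⟨τ, hτ⟩ := Sys.bf_lim (fun n => (s n).F₁) (fun n => (s n).σ₁)
    (fun m n h => (hle m n h).l1) (fun m n h => (hle m n h).e1) (fun n => (hn n).1)
    (fun n => (hn n).2.2.1)
  obtain ⟨σ, hσ⟩ := Sys.bf_lim (fun n => (s n).F₂) (fun n => (s n).σ₂)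
    (fun m n h => (hle m n h).l2) (fun m n h => (hle m n h).e2) (fun n => (hn n).2.1)
    (fun n => (hn n).2.2.2)
  refine ⟨σ, τ, ?_⟩
  apply RelIso.ext
  intro v
  rw [RelIso.mul_apply, RelIso.mul_apply]
  -- a stage with `supp v ⊆ F₁`
  have hN : S.supp v ⊆ (s ((S.supp v).sup id + 1)).F₁ := by
    intro i hi
    exact (hle (i + 1) _ (Nat.succ_le_succ (Finset.le_sup (f := id) hi))).l1 (hn i).1
  have h1 : S.act τ v = S.act (s ((S.supp v).sup id + 1)).σ₁ v :=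
    Sys.bf_act_congr fun i hi => hτ ((S.supp v).sup id + 1) i (hN hi)
  have hN2 : S.supp (g v) ⊆ (s ((S.supp v).sup id + 1)).F₂ := ((s ((S.supp v).sup id + 1)).maps v).1 hN
  have h2 : S.act σ (g v) = S.act (s ((S.supp v).sup id + 1)).σ₂ (g v) :=
    Sys.bf_act_congr fun i hi => hσ ((S.supp v).sup id + 1) i (hN2 hi)
  rw [h1, h2]
  exact (s ((S.supp v).sup id + 1)).comm v hN

end P697e97
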