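import Mathlib

/-!
MP_697e97_al, AutRandomGraph: `cmw (Aut R) ≤ 120` for every copy `R` of the random graph.
This file: the definitions shared by all modules (owner helper55).  DO NOT CHANGE.
-/

set_option autoImplicit false

namespace P697e97

/-- `S` is contained in the product of `n` commutative submonoids of `M`. -/
def AP {M : Type*} [Monoid M] (n : ℕ) (S : Set M) : Prop :=
  ∃ C : Fin n → Submonoid M,
    (∀ i, ∀ a ∈ C i, ∀ b ∈ C i, a * b = b * a) ∧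
    ∀ m ∈ S, ∃ c : Fin n → M, (∀ i, c i ∈ C i) ∧ (List.ofFn c).prod = m

/-- `G` is a copy of the countable random graph. -/
def Rand {V : Type*} (G : SimpleGraph V) : Prop :=
  Countable V ∧ ∀ U W : Finset V, Disjoint U W →
    ∃ z : V, z ∉ U ∧ z ∉ W ∧ (∀ u ∈ U, G.Adj z u) ∧ (∀ w ∈ W, ¬ G.Adj z w)

/-- `p` is (the graph of) a finite partial isomorphism between the graphs `G` and `H`. -/
def PI {V W : Type*} (G : SimpleGraph V) (H : SimpleGraph W) (p : Finset (V × W)) : Prop :=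
  ∀ a ∈ p, ∀ b ∈ p, (a.1 = b.1 ↔ a.2 = b.2) ∧ (G.Adj a.1 b.1 ↔ H.Adj a.2 b.2)

/-- Common data of a stage and of the limit: a graph with an action of `Sym(ℕ)` with finite
supports such that only finitely many vertices have support in a given finite set and adjacent
vertices have nested supports. -/
structure Sys where
  /-- vertices -/
  V : Type
  /-- the graph -/
  G : SimpleGraph V
  /-- the action of `Sym(ℕ)` by automorphisms -/
  act : Equiv.Perm ℕ →* (G ≃g G)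
  /-- the support -/
  supp : V → Finset ℕ
  supp_act : ∀ σ v, supp (act σ v) = (supp v).map σ.toEmbedding
  act_fix : ∀ σ v, (∀ i ∈ supp v, σ i = i) → act σ v = v
  fin : ∀ F : Finset ℕ, {v | supp v ⊆ F}.Finite
  nested : ∀ u v, G.Adj u v → supp u ⊆ supp v ∨ supp v ⊆ supp u

namespace Sys

/-- The finite partial isomorphism `q` is an automorphism of the graph induced on
`T(F) = {v : supp v ⊆ F}`. -/
structure Full (S : Sys) (F : Finset ℕ) (q : Finset (S.V × S.V)) : Prop where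
  pi : PI S.G S.G q
  le : ∀ a ∈ q, S.supp a.1 ⊆ F ∧ S.supp a.2 ⊆ F
  dom : ∀ v, S.supp v ⊆ F → ∃ w, (v, w) ∈ q
  ran : ∀ w, S.supp w ⊆ F → ∃ v, (v, w) ∈ q

/-- The closure property (extension of finite partial isomorphisms, EPPA). -/
def Closure (S : Sys) : Prop :=
  ∀ p : Finset (S.V × S.V), PI S.G S.G p → ∀ F : Finset ℕ,
    ∃ (F' : Finset ℕ) (q : Finset (S.V × S.V)), F ⊆ F' ∧ p ⊆ q ∧ S.Full F' q

/-- `g` maps `T(F₁)` onto `T(F₂)`. -/
def Maps (S : Sys) (g : S.G ≃g S.G) (F₁ F₂ : Finset ℕ) : Prop :=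
  ∀ v, S.supp v ⊆ F₁ ↔ S.supp (g v) ⊆ F₂

/-- Genericity of an automorphism. -/
structure Gen (S : Sys) (g : S.G ≃g S.G) : Prop where
  g1 : ∀ F : Finset ℕ, ∃ F₁ F₂ : Finset ℕ, F ⊆ F₁ ∧ F ⊆ F₂ ∧ S.Maps g F₁ F₂
  g2 : ∀ F₁ F₂ F₁' F₂' : Finset ℕ, F₁ ⊆ F₁' → F₂ ⊆ F₂' → ∀ f : S.G ≃g S.G,
    S.Maps g F₁ F₂ → S.Maps f F₁' F₂' → (∀ v, S.supp v ⊆ F₁ → f v = g v) →
    ∃ σ₁ σ₂ : Equiv.Perm ℕ, (∀ i ∈ F₁, σ₁ i = i) ∧ (∀ i ∈ F₂, σ₂ i = i) ∧
      ∀ v, S.supp v ⊆ F₁' → g (S.act σ₁ v) = S.act σ₂ (f v)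

end Sys

/-- The finite graph in which all partial isomorphisms of `G` extend (EPPA witness). -/
def eppa {D : Type*} (G : SimpleGraph D) : SimpleGraph (D × (D → ZMod 3)) where
  Adj a b := a.1 ≠ b.1 ∧
    ((G.Adj a.1 b.1 ∧ a.2 b.1 + b.2 a.1 = 0) ∨ (¬ G.Adj a.1 b.1 ∧ a.2 b.1 + b.2 a.1 = 2))
  symm := by
    refine ⟨fun a b h => ?_⟩
    refine ⟨h.1.symm, ?_⟩
    rw [add_comm (b.2 a.1), G.adj_comm]
    exact h.2
  loopless := ⟨fun a h => h.1 rfl⟩

end P697e97
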