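import Pool.Agent.Lib.P697e97.Base

/-!
Finite EPPA.  The partial isomorphism `p` is extended to a permutation `π` of `D`; with
`S = dom p`, `d x y = [x ~ y] - [π x ~ π y]` and `m x y = 0` if `x ∈ S`, `2` if `x ∉ S, y ∈ S`,
`1` if `x, y ∉ S`, the map `(x, ξ) ↦ (π x, z ↦ ξ (π⁻¹ z) + m x (π⁻¹ z) * d x (π⁻¹ z))` is an
automorphism of `eppa G`.
-/

set_option autoImplicit false

namespace P697e97

/-- A finite partial injection of a finite type extends to a permutation. -/
theorem eppa_perm {D : Type*} [Finite D] (p : Finset (D × D))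
    (hp : ∀ a ∈ p, ∀ b ∈ p, (a.1 = b.1 ↔ a.2 = b.2)) :
    ∃ π : Equiv.Perm D, ∀ a ∈ p, π a.1 = a.2 := by
  classical
  let g : {x : D // ∃ y, (x, y) ∈ p} → {y : D // ∃ x, (x, y) ∈ p} :=
    fun x => ⟨x.2.choose, x.1, x.2.choose_spec⟩
  have hg : Function.Bijective g := by
    constructor
    · intro x x' h
      have h1 : x.2.choose = x'.2.choose := congrArg Subtype.val h
      exact Subtype.ext ((hp _ x.2.choose_spec _ x'.2.choose_spec).2 h1)
    · rintro ⟨y, x, hx⟩
      refine ⟨⟨x, y, hx⟩, Subtype.ext ?_⟩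
      have h2 : (⟨y, hx⟩ : ∃ y, (x, y) ∈ p).choose = y :=
        (hp _ (⟨y, hx⟩ : ∃ y, (x, y) ∈ p).choose_spec _ hx).1 rfl
      exact h2
  let e := Equiv.ofBijective g hg
  refine ⟨e.extendSubtype, fun a ha => ?_⟩
  have h3 := Equiv.extendSubtype_apply_of_mem e a.1 ⟨a.2, ha⟩
  rw [h3]
  exact (hp _ (⟨a.2, ha⟩ : ∃ y, (a.1, y) ∈ p).choose_spec _ ha).1 rfl

open Classical in
/-- The indicator of a proposition in `ZMod 3`. -/
private noncomputable def eppaInd (P : Prop) : ZMod 3 := if P then 1 else 0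

private theorem eppa_adj_iff {D : Type*} (G : SimpleGraph D) (a b : D × (D → ZMod 3)) :
    (eppa G).Adj a b ↔
      a.1 ≠ b.1 ∧ a.2 b.1 + b.2 a.1 + 2 * eppaInd (G.Adj a.1 b.1) = 2 := by
  by_cases h : G.Adj a.1 b.1 <;> simp [eppa, eppaInd, h]

open Classical in
/-- The multiplier. -/
private noncomputable def eppaM {D : Type*} (p : Finset (D × D)) (x y : D) : ZMod 3 :=
  if ∃ z, (x, z) ∈ p then 0 else if ∃ z, (y, z) ∈ p then 2 else 1

theorem eppa_extend {D : Type*} [Finite D] (G : SimpleGraph D) (p : Finset (D × D))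
    (hp : PI G G p) :
    ∃ f : eppa G ≃g eppa G, ∀ a ∈ p, f (a.1, 0) = (a.2, 0) := by
  classical
  obtain ⟨π, hπ⟩ := eppa_perm p (fun a ha b hb => (hp a ha b hb).1)
  let d : D → D → ZMod 3 := fun x y =>
    eppaInd (G.Adj x y) - eppaInd (G.Adj (π x) (π y))
  have hdsymm : ∀ x y, d x y = d y x := fun x y => by
    simp only [d, G.adj_comm x y, G.adj_comm (π x) (π y)]
  have hd0 : ∀ x y, (∃ z, (x, z) ∈ p) → (∃ z, (y, z) ∈ p) → d x y = 0 := by
    rintro x y ⟨z, hz⟩ ⟨w, hw⟩
    have h1 := (hp _ hz _ hw).2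
    have h2 : π x = z := hπ _ hz
    have h3 : π y = w := hπ _ hw
    simp only [d, h2, h3]
    rw [show G.Adj x y = G.Adj z w from propext h1, sub_self]
  have hm : ∀ x y, eppaM p x y * d x y + eppaM p y x * d y x = 2 * d x y := by
    intro x y
    rw [hdsymm y x]
    by_cases hx : ∃ z, (x, z) ∈ p
    · by_cases hy : ∃ z, (y, z) ∈ p
      · rw [hd0 x y hx hy]; ring
      · simp only [eppaM, if_pos hx, if_neg hy]; ring
    · by_cases hy : ∃ z, (y, z) ∈ p
      · simp only [eppaM, if_pos hy, if_neg hx]; ring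
      · simp only [eppaM, if_neg hy, if_neg hx]; ring
  let F : (D × (D → ZMod 3)) ≃ (D × (D → ZMod 3)) :=
    { toFun := fun a => (π a.1, fun z => a.2 (π.symm z) +
        eppaM p a.1 (π.symm z) * d a.1 (π.symm z))
      invFun := fun b => (π.symm b.1, fun y => b.2 (π y) -
        eppaM p (π.symm b.1) y * d (π.symm b.1) y)
      left_inv := fun a => by
        refine Prod.ext ?_ ?_
        · simp
        · funext y
          simp
      right_inv := fun b => by
        refine Prod.ext ?_ ?_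
        · simp
        · funext y
          simp }
  refine ⟨⟨F, ?_⟩, ?_⟩
  · intro a b
    rw [eppa_adj_iff, eppa_adj_iff]
    refine and_congr ?_ ?_
    · exact π.injective.ne_iff
    · have h1 : (F a).2 (F b).1 + (F b).2 (F a).1 + 2 * eppaInd (G.Adj (F a).1 (F b).1) =
          a.2 b.1 + b.2 a.1 + 2 * eppaInd (G.Adj a.1 b.1) := by
        have h2 : (F a).2 (F b).1 = a.2 b.1 + eppaM p a.1 b.1 * d a.1 b.1 := by
          change a.2 (π.symm (π b.1)) + eppaM p a.1 (π.symm (π b.1)) * d a.1 (π.symm (π b.1)) = _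
          rw [Equiv.symm_apply_apply]
        have h3 : (F b).2 (F a).1 = b.2 a.1 + eppaM p b.1 a.1 * d b.1 a.1 := by
          change b.2 (π.symm (π a.1)) + eppaM p b.1 (π.symm (π a.1)) * d b.1 (π.symm (π a.1)) = _
          rw [Equiv.symm_apply_apply]
        have h4 : eppaInd (G.Adj (F a).1 (F b).1) = eppaInd (G.Adj a.1 b.1) - d a.1 b.1 := by
          change eppaInd (G.Adj (π a.1) (π b.1)) = _
          simp only [d]; ring
        rw [h2, h3, h4]
        linear_combination hm a.1 b.1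
      rw [h1]
  · intro a ha
    refine Prod.ext (hπ a ha) ?_
    funext z
    have h5 : ∃ w, (a.1, w) ∈ p := ⟨a.2, ha⟩
    change (0 : ZMod 3) + eppaM p a.1 (π.symm z) * d a.1 (π.symm z) = 0
    simp only [eppaM, if_pos h5]; ring

end P697e97
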