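import Pool.Agent.Lib.P697e97.RandIso

/-!
Existence of `k` such that `k` and `g * k` are generic.  Write `T(F) = {v : supp v ⊆ F}`.
Use `exists_iso` with `V = W = S.V` (countable by `S.fin`) and the conditions
(D1, `F`) there are `F₁, F₂ ⊇ F` with: `p` maps `T(F₁)` onto `T(F₂)`;
(D2, `F₁, F₂, F₁', F₂', f'`) either `(σ₁ v, σ₂ w) ∈ p` for all `(v, w) ∈ f'` and some `σ₁`, `σ₂`
   fixing `F₁`, `F₂` pointwise, or no finite `q ⊇ p` (injective, keeping adjacency) maps `T(F₁)`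
   onto `T(F₂)` and agrees with `f'` there;
and the same conditions for `{(v, g w) : (v, w) ∈ p}`.
-/

set_option autoImplicit false

namespace P697e97

/-- a permutation which fixes `A` pointwise and moves the rest of `B` off `K` -/
theorem gen_perm (A B K : Finset ℕ) :
    ∃ σ : Equiv.Perm ℕ, (∀ i ∈ A, σ i = i) ∧ ∀ i ∈ B, i ∉ A → σ i ∉ K := by
  classical
  obtain ⟨M, hM⟩ : ∃ M : ℕ, ∀ i ∈ A ∪ B ∪ K, i < M :=
    ⟨(A ∪ B ∪ K).sup id + 1, fun i hi => Nat.lt_succ_of_le (Finset.le_sup (f := id) hi)⟩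
  have hA : ∀ i ∈ A, i < M := fun i hi => hM i (by simp [hi])
  have hB : ∀ i ∈ B, i < M := fun i hi => hM i (by simp [hi])
  have hK : ∀ i ∈ K, i < M := fun i hi => hM i (by simp [hi])
  let f : ℕ → ℕ := fun i =>
    if i ∈ B ∧ i ∉ A then i + M else if M ≤ i ∧ i - M ∈ B ∧ i - M ∉ A then i - M else i
  have f1 : ∀ i, i ∈ B ∧ i ∉ A → f i = i + M := fun i hi => if_pos hi
  have f2 : ∀ i, ¬ (i ∈ B ∧ i ∉ A) → (M ≤ i ∧ i - M ∈ B ∧ i - M ∉ A) → f i = i - M :=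
    fun i hi hj => by simp only [f]; rw [if_neg hi, if_pos hj]
  have f3 : ∀ i, ¬ (i ∈ B ∧ i ∉ A) → ¬ (M ≤ i ∧ i - M ∈ B ∧ i - M ∉ A) → f i = i :=
    fun i hi hj => by simp only [f]; rw [if_neg hi, if_neg hj]
  have hf : Function.Involutive f := by
    intro i
    by_cases h1 : i ∈ B ∧ i ∉ A
    · rw [f1 i h1, f2 (i + M) (fun h => absurd (hB _ h.1) (by omega))
        ⟨by omega, by simpa using h1⟩]
      omega
    · by_cases h2 : M ≤ i ∧ i - M ∈ B ∧ i - M ∉ A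
      · rw [f2 i h1 h2, f1 (i - M) h2.2]
        omega
      · rw [f3 i h1 h2, f3 i h1 h2]
  refine ⟨Function.Involutive.toPerm f hf, fun i hi => ?_, fun i hi hiA hK' => ?_⟩
  · exact f3 i (fun h => h.2 hi) (fun h => absurd (hA i hi) (by omega))
  · have h1 : Function.Involutive.toPerm f hf i = i + M := f1 i ⟨hi, hiA⟩
    rw [h1] at hK'
    exact absurd (hK _ hK') (by omega)

/-- `{(v, a w) : (v, w) ∈ p}` -/
noncomputable def genTw {V : Type} {G : SimpleGraph V} (a : G ≃g G) (p : Finset (V × V)) :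
    Finset (V × V) := by
  classical
  exact p.image fun x => (x.1, a x.2)

theorem mem_genTw {V : Type} {G : SimpleGraph V} (a : G ≃g G) (p : Finset (V × V)) (x : V × V) :
    x ∈ genTw a p ↔ ∃ w, (x.1, w) ∈ p ∧ a w = x.2 := by
  classical
  unfold genTw
  rw [Finset.mem_image]
  constructor
  · rintro ⟨y, hy, rfl⟩
    exact ⟨y.2, hy, rfl⟩
  · rintro ⟨w, hw, h⟩
    exact ⟨(x.1, w), hw, Prod.ext rfl h⟩

theorem PI.genTw {V : Type} {G : SimpleGraph V} (a : G ≃g G) {p : Finset (V × V)}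
    (hp : PI G G p) : PI G G (genTw a p) := by
  rintro ⟨x1, x2⟩ hx ⟨y1, y2⟩ hy
  obtain ⟨w, hw, rfl⟩ := (mem_genTw a p _).1 hx
  obtain ⟨z, hz, rfl⟩ := (mem_genTw a p _).1 hy
  have h := hp _ hw _ hz
  refine ⟨h.1.trans a.injective.eq_iff.symm, h.2.trans ?_⟩
  exact (SimpleGraph.Iso.map_adj_iff a).symm

/-- pulling back along `a` -/
theorem genTw_inv {V : Type} {G : SimpleGraph V} (a : G ≃g G) (p : Finset (V × V)) :
    P697e97.genTw a (P697e97.genTw a⁻¹ p) = p := by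
  ext ⟨v, w⟩
  rw [mem_genTw]
  constructor
  · rintro ⟨z, hz, rfl⟩
    obtain ⟨y, hy, rfl⟩ := (mem_genTw a⁻¹ p _).1 hz
    simpa [RelIso.apply_inv_self] using hy
  · intro h
    refine ⟨a⁻¹ w, (mem_genTw a⁻¹ p _).2 ⟨w, h, rfl⟩, ?_⟩
    exact RelIso.apply_inv_self a w

theorem genTw_subset {V : Type} {G : SimpleGraph V} (a : G ≃g G) {p q : Finset (V × V)}
    (h : P697e97.genTw a p ⊆ q) : p ⊆ P697e97.genTw a⁻¹ q := by
  rintro ⟨v, w⟩ hx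
  have h1 : (v, a w) ∈ q := h ((mem_genTw a p _).2 ⟨w, hx, rfl⟩)
  exact (mem_genTw a⁻¹ q _).2 ⟨a w, h1, RelIso.inv_apply_self a w⟩

namespace Sys

theorem gen_countable (S : Sys) : Countable S.V := by
  have h : (Set.univ : Set S.V) = ⋃ F : Finset ℕ, {v | S.supp v ⊆ F} := by
    ext v
    simp only [Set.mem_univ, Set.mem_iUnion, Set.mem_ofPred_eq, true_iff]
    exact ⟨S.supp v, subset_rfl⟩
  have h2 : (Set.univ : Set S.V).Countable := by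
    rw [h]
    exact Set.countable_iUnion fun F => (S.fin F).countable
  exact Set.countable_univ_iff.1 h2

/-- the condition (D1, `F`) -/
def gen1 (S : Sys) (F : Finset ℕ) (p : Finset (S.V × S.V)) : Prop :=
  ∃ F₁ F₂ : Finset ℕ, F ⊆ F₁ ∧ F ⊆ F₂ ∧
    (∀ v, S.supp v ⊆ F₁ → ∃ w, S.supp w ⊆ F₂ ∧ (v, w) ∈ p) ∧
    (∀ w, S.supp w ⊆ F₂ → ∃ v, S.supp v ⊆ F₁ ∧ (v, w) ∈ p)

/-- `q` maps `T(F₁)` onto `T(F₂)` and agrees with `f'` there -/
def genGood (S : Sys) (F₁ F₂ : Finset ℕ) (f' q : Finset (S.V × S.V)) : Prop :=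
  (∀ v, S.supp v ⊆ F₁ → ∃ w, S.supp w ⊆ F₂ ∧ (v, w) ∈ q ∧ (v, w) ∈ f') ∧
    (∀ w, S.supp w ⊆ F₂ → ∃ v, S.supp v ⊆ F₁ ∧ (v, w) ∈ q)

/-- the condition (D2) -/
def gen2 (S : Sys) (F₁ F₂ F₁' F₂' : Finset ℕ) (f' p : Finset (S.V × S.V)) : Prop :=
  PI S.G S.G f' → (∀ x ∈ f', S.supp x.1 ⊆ F₁' ∧ S.supp x.2 ⊆ F₂') →
    (∃ σ₁ σ₂ : Equiv.Perm ℕ, (∀ i ∈ F₁, σ₁ i = i) ∧ (∀ i ∈ F₂, σ₂ i = i) ∧
      ∀ x ∈ f', (S.act σ₁ x.1, S.act σ₂ x.2) ∈ p) ∨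
    ∀ q, PI S.G S.G q → p ⊆ q → ¬ S.genGood F₁ F₂ f' q

theorem gen_move (S : Sys) {F F' K : Finset ℕ} {σ : Equiv.Perm ℕ} (h1 : ∀ i ∈ F, σ i = i)
    (h2 : ∀ i ∈ F', i ∉ F → σ i ∉ K) {v : S.V} (hv : S.supp v ⊆ F') :
    (S.supp v ⊆ F → S.act σ v = v) ∧ (¬ S.supp v ⊆ F → ¬ S.supp (S.act σ v) ⊆ K) ∧
      (∀ i ∈ S.supp (S.act σ v), i ∈ K → i ∈ F) := by
  refine ⟨fun h => S.act_fix σ v fun i hi => h1 i (h hi), fun h h' => ?_, fun i hi hK => ?_⟩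
  · obtain ⟨i, hi, hiF⟩ := Finset.not_subset.1 h
    refine h2 i (hv hi) hiF (h' ?_)
    rw [S.supp_act]
    exact Finset.mem_map.2 ⟨i, hi, rfl⟩
  · rw [S.supp_act] at hi
    obtain ⟨j, hj, rfl⟩ := Finset.mem_map.1 hi
    by_cases hjF : j ∈ F
    · have : σ.toEmbedding j = j := h1 j hjF
      rw [this]
      exact hjF
    · exact absurd hK (h2 j (hv hj) hjF)

theorem gen2_cofinal (S : Sys) (F₁ F₂ F₁' F₂' : Finset ℕ) (f' p : Finset (S.V × S.V))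
    (hp : PI S.G S.G p) : ∃ q, PI S.G S.G q ∧ p ⊆ q ∧ S.gen2 F₁ F₂ F₁' F₂' f' q := by
  classical
  by_cases hf : PI S.G S.G f'
  swap
  · exact ⟨p, hp, subset_rfl, fun h => absurd h hf⟩
  by_cases hs : ∀ x ∈ f', S.supp x.1 ⊆ F₁' ∧ S.supp x.2 ⊆ F₂'
  swap
  · exact ⟨p, hp, subset_rfl, fun _ h => absurd h hs⟩
  by_cases hq : ∃ q, PI S.G S.G q ∧ p ⊆ q ∧ S.genGood F₁ F₂ f' q
  swap
  · push Not at hq
    exact ⟨p, hp, subset_rfl, fun _ _ => Or.inr hq⟩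
  obtain ⟨q, hqPI, hpq, hg1, hg2⟩ := hq
  let K : Finset ℕ := q.biUnion fun x => S.supp x.1 ∪ S.supp x.2
  have hK1 : ∀ x ∈ q, S.supp x.1 ⊆ K := fun x hx i hi =>
    Finset.mem_biUnion.2 ⟨x, hx, Finset.mem_union_left _ hi⟩
  have hK2 : ∀ x ∈ q, S.supp x.2 ⊆ K := fun x hx i hi =>
    Finset.mem_biUnion.2 ⟨x, hx, Finset.mem_union_right _ hi⟩
  obtain ⟨σ₁, a1, a2⟩ := gen_perm F₁ F₁' K
  obtain ⟨σ₂, b1, b2⟩ := gen_perm F₂ F₂' K
  -- the points of `T(F₁)` in `f'`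
  have key1 : ∀ x ∈ f', S.supp x.1 ⊆ F₁ → x ∈ q ∧ S.supp x.2 ⊆ F₂ := by
    rintro ⟨v, w⟩ hx hv
    obtain ⟨w', h1, h2, h3⟩ := hg1 v hv
    have h4 : w' = w := ((hf _ h3 _ hx).1).1 rfl
    rw [← h4]
    exact ⟨h2, h1⟩
  have key2 : ∀ x ∈ q, S.supp x.2 ⊆ F₂ → S.supp x.1 ⊆ F₁ := by
    rintro ⟨v, w⟩ hx hw
    obtain ⟨v', h1, h2⟩ := hg2 w hw
    have h4 : v' = v := ((hqPI _ h2 _ hx).1).2 rfl
    rw [← h4]
    exact h1
  have key3 : ∀ x ∈ q, S.supp x.1 ⊆ F₁ → x ∈ f' ∧ S.supp x.2 ⊆ F₂ := by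
    rintro ⟨v, w⟩ hx hv
    obtain ⟨w', h1, h2, h3⟩ := hg1 v hv
    have h4 : w' = w := ((hqPI _ h2 _ hx).1).1 rfl
    rw [← h4]
    exact ⟨h3, h1⟩
  have key4 : ∀ x ∈ f', S.supp x.2 ⊆ F₂ → S.supp x.1 ⊆ F₁ := by
    rintro ⟨v, w⟩ hx hw
    obtain ⟨v', h1, h2⟩ := hg2 w hw
    have h3 := (key3 _ h2 h1).1
    have h4 : v' = v := ((hf _ h3 _ hx).1).2 rfl
    rw [← h4]
    exact h1
  -- the mixed case
  have mix : ∀ y ∈ q, ∀ x ∈ f', (y.1 = S.act σ₁ x.1 ↔ y.2 = S.act σ₂ x.2) ∧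
      (S.G.Adj y.1 (S.act σ₁ x.1) ↔ S.G.Adj y.2 (S.act σ₂ x.2)) := by
    intro y hy x hx
    obtain ⟨m1, m2, m3⟩ := S.gen_move a1 a2 (hs x hx).1
    obtain ⟨n1, n2, n3⟩ := S.gen_move b1 b2 (hs x hx).2
    by_cases hv : S.supp x.1 ⊆ F₁
    · have h1 := key1 x hx hv
      rw [m1 hv, n1 h1.2]
      exact hqPI y hy x h1.1
    · have hw : ¬ S.supp x.2 ⊆ F₂ := fun h => hv (key4 x hx h)
      have m4 := m2 hv
      have n4 := n2 hw
      refine ⟨⟨fun h => absurd (h ▸ hK1 y hy) m4, fun h => absurd (h ▸ hK2 y hy) n4⟩, ?_⟩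
      have main : S.supp y.1 ⊆ F₁ →
          (S.G.Adj y.1 (S.act σ₁ x.1) ↔ S.G.Adj y.2 (S.act σ₂ x.2)) := by
        intro hu
        obtain ⟨h1, h2⟩ := key3 y hy hu
        have e1 : S.act σ₁ y.1 = y.1 := S.act_fix σ₁ y.1 fun i hi => a1 i (hu hi)
        have e2 : S.act σ₂ y.2 = y.2 := S.act_fix σ₂ y.2 fun i hi => b1 i (h2 hi)
        calc S.G.Adj y.1 (S.act σ₁ x.1) ↔ S.G.Adj (S.act σ₁ y.1) (S.act σ₁ x.1) := by rw [e1]
          _ ↔ S.G.Adj y.1 x.1 := SimpleGraph.Iso.map_adj_iff (S.act σ₁)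
          _ ↔ S.G.Adj y.2 x.2 := (hf y h1 x hx).2
          _ ↔ S.G.Adj (S.act σ₂ y.2) (S.act σ₂ x.2) :=
            (SimpleGraph.Iso.map_adj_iff (S.act σ₂)).symm
          _ ↔ S.G.Adj y.2 (S.act σ₂ x.2) := by rw [e2]
      constructor
      · intro h
        rcases S.nested _ _ h with h1 | h1
        · exact (main fun i hi => m3 i (h1 hi) (hK1 y hy hi)).1 h
        · exact absurd (h1.trans (hK1 y hy)) m4
      · intro h
        rcases S.nested _ _ h with h1 | h1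
        · exact (main (key2 y hy fun i hi => n3 i (h1 hi) (hK2 y hy hi))).2 h
        · exact absurd (h1.trans (hK2 y hy)) n4
  let φ : S.V × S.V → S.V × S.V := fun x => (S.act σ₁ x.1, S.act σ₂ x.2)
  refine ⟨q ∪ f'.image φ, ?_, hpq.trans Finset.subset_union_left, fun _ _ => Or.inl
    ⟨σ₁, σ₂, a1, b1, fun x hx => Finset.mem_union_right _ (Finset.mem_image_of_mem φ hx)⟩⟩
  intro a ha b hb
  rcases Finset.mem_union.1 ha with ha | ha
  · rcases Finset.mem_union.1 hb with hb | hb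
    · exact hqPI a ha b hb
    · obtain ⟨x, hx, rfl⟩ := Finset.mem_image.1 hb
      exact mix a ha x hx
  · obtain ⟨x, hx, rfl⟩ := Finset.mem_image.1 ha
    rcases Finset.mem_union.1 hb with hb | hb
    · have h := mix b hb x hx
      refine ⟨?_, ?_⟩
      · rw [eq_comm, h.1, eq_comm]
      · rw [S.G.adj_comm, h.2, S.G.adj_comm]
    · obtain ⟨y, hy, rfl⟩ := Finset.mem_image.1 hb
      have h := hf x hx y hy
      refine ⟨?_, ?_⟩
      · show S.act σ₁ x.1 = S.act σ₁ y.1 ↔ S.act σ₂ x.2 = S.act σ₂ y.2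
        rw [(S.act σ₁).injective.eq_iff, (S.act σ₂).injective.eq_iff]
        exact h.1
      · show S.G.Adj (S.act σ₁ x.1) (S.act σ₁ y.1) ↔ S.G.Adj (S.act σ₂ x.2) (S.act σ₂ y.2)
        exact ((SimpleGraph.Iso.map_adj_iff (S.act σ₁)).trans h.2).trans
          (SimpleGraph.Iso.map_adj_iff (S.act σ₂)).symm

theorem gen_pi (S : Sys) (h : S.G ≃g S.G) (p : Finset (S.V × S.V))
    (hp : ∀ x ∈ p, h x.1 = x.2) : PI S.G S.G p := by
  intro a ha b hb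
  rw [← hp a ha, ← hp b hb]
  exact ⟨h.injective.eq_iff.symm, (SimpleGraph.Iso.map_adj_iff h).symm⟩

theorem gen_of (S : Sys) (h : S.G ≃g S.G)
    (h1 : ∀ F, ∃ p, S.gen1 F p ∧ ∀ x ∈ p, h x.1 = x.2)
    (h2 : ∀ F₁ F₂ F₁' F₂' f', ∃ p, S.gen2 F₁ F₂ F₁' F₂' f' p ∧ ∀ x ∈ p, h x.1 = x.2) :
    S.Gen h := by
  classical
  refine ⟨fun F => ?_, fun F₁ F₂ F₁' F₂' hF₁ hF₂ f hm hm' hfh => ?_⟩
  · obtain ⟨p, ⟨F₁, F₂, i1, i2, i3, i4⟩, hp⟩ := h1 F
    refine ⟨F₁, F₂, i1, i2, fun v => ⟨fun hv => ?_, fun hv => ?_⟩⟩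
    · obtain ⟨w, hw, hvw⟩ := i3 v hv
      rw [hp _ hvw]
      exact hw
    · obtain ⟨v', hv', hvw⟩ := i4 _ hv
      have e : v' = v := h.injective (hp _ hvw)
      rw [← e]
      exact hv'
  · let f' : Finset (S.V × S.V) := (S.fin F₁').toFinset.image fun v => (v, f v)
    have hf' : ∀ v, S.supp v ⊆ F₁' → (v, f v) ∈ f' := fun v hv =>
      Finset.mem_image.2 ⟨v, (Set.Finite.mem_toFinset _).2 hv, rfl⟩
    have hf2 : ∀ x ∈ f', S.supp x.1 ⊆ F₁' ∧ f x.1 = x.2 := by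
      intro x hx
      obtain ⟨v, hv, rfl⟩ := Finset.mem_image.1 hx
      exact ⟨(Set.Finite.mem_toFinset _).1 hv, rfl⟩
    obtain ⟨p, hp2, hp⟩ := h2 F₁ F₂ F₁' F₂' f'
    rcases hp2 (S.gen_pi f f' fun x hx => (hf2 x hx).2) (fun x hx => ⟨(hf2 x hx).1, by
      rw [← (hf2 x hx).2]
      exact (hm' _).1 (hf2 x hx).1⟩) with ⟨σ₁, σ₂, j1, j2, j3⟩ | hno
    · exact ⟨σ₁, σ₂, j1, j2, fun v hv => hp _ (j3 _ (hf' v hv))⟩
    · exfalso
      refine hno (p ∪ (S.fin F₁).toFinset.image fun v => (v, h v)) ?_ Finset.subset_union_left ?_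
      · refine S.gen_pi h _ fun x hx => ?_
        rcases Finset.mem_union.1 hx with hx | hx
        · exact hp x hx
        · obtain ⟨v, -, rfl⟩ := Finset.mem_image.1 hx
          rfl
      · have hin : ∀ v, S.supp v ⊆ F₁ →
            (v, h v) ∈ p ∪ (S.fin F₁).toFinset.image fun v => (v, h v) := fun v hv =>
          Finset.mem_union_right _ (Finset.mem_image.2
            ⟨v, (Set.Finite.mem_toFinset _).2 hv, rfl⟩)
        refine ⟨fun v hv => ⟨h v, (hm v).1 hv, hin v hv, ?_⟩, fun w hw => ?_⟩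
        · rw [← hfh v hv]
          exact hf' v (hv.trans hF₁)
        · have e : h (h.symm w) = w := h.apply_symm_apply w
          have hv : S.supp (h.symm w) ⊆ F₁ := (hm _).2 (by rw [e]; exact hw)
          refine ⟨h.symm w, hv, ?_⟩
          have := hin _ hv
          rwa [e] at this

/-- the index type of the conditions -/
abbrev genIx (S : Sys) : Type :=
  Finset ℕ ⊕ (Finset ℕ × Finset ℕ × Finset ℕ × Finset ℕ × Finset (S.V × S.V))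

/-- the conditions -/
def genD (S : Sys) : S.genIx → Finset (S.V × S.V) → Prop
  | Sum.inl F, p => S.gen1 F p
  | Sum.inr i, p => S.gen2 i.1 i.2.1 i.2.2.1 i.2.2.2.1 i.2.2.2.2 p

theorem genD_cofinal (S : Sys) (hS : S.Closure) (i : S.genIx) (p : Finset (S.V × S.V))
    (hp : PI S.G S.G p) : ∃ q, PI S.G S.G q ∧ p ⊆ q ∧ S.genD i q := by
  rcases i with F | i
  · obtain ⟨F', q, hF, hpq, hq⟩ := hS p hp F
    refine ⟨q, hq.pi, hpq, F', F', hF, hF, fun v hv => ?_, fun w hw => ?_⟩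
    · obtain ⟨w, hw⟩ := hq.dom v hv
      exact ⟨w, (hq.le _ hw).2, hw⟩
    · obtain ⟨v, hv⟩ := hq.ran w hw
      exact ⟨v, (hq.le _ hv).1, hv⟩
  · exact S.gen2_cofinal _ _ _ _ _ p hp

end Sys

theorem Sys.exists_gen (S : Sys) (hS : S.Closure) (g : S.G ≃g S.G) :
    ∃ k : S.G ≃g S.G, S.Gen k ∧ S.Gen (g * k) := by
  classical
  have := S.gen_countable
  let tw : Bool → (S.G ≃g S.G) := fun b => if b then g else 1
  obtain ⟨k, hk⟩ := exists_iso S.G S.G (ι := Bool × S.genIx)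
    (fun i p => S.genD i.2 (genTw (tw i.1) p))
    (fun p hp v => by
      obtain ⟨F', q, hF, hpq, hq⟩ := hS p hp (S.supp v)
      exact ⟨q, hq.pi, hpq, hq.dom v hF⟩)
    (fun p hp w => by
      obtain ⟨F', q, hF, hpq, hq⟩ := hS p hp (S.supp w)
      exact ⟨q, hq.pi, hpq, hq.ran w hF⟩)
    (fun i p hp => by
      obtain ⟨q, hq, hpq, hD⟩ := S.genD_cofinal hS i.2 _ (PI.genTw (tw i.1) hp)
      refine ⟨genTw (tw i.1)⁻¹ q, PI.genTw _ hq, genTw_subset _ hpq, ?_⟩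
      rw [genTw_inv]
      exact hD)
  have main : ∀ b, S.Gen (tw b * k) := by
    intro b
    have hall : ∀ i : S.genIx, ∃ p, S.genD i p ∧ ∀ x ∈ p, (tw b * k) x.1 = x.2 := by
      intro i
      obtain ⟨p, hD, hp⟩ := hk (b, i)
      refine ⟨genTw (tw b) p, hD, fun x hx => ?_⟩
      obtain ⟨w, hw, e⟩ := (mem_genTw _ _ _).1 hx
      rw [← e, RelIso.mul_apply, hp _ hw]
    exact S.gen_of _ (fun F => hall (Sum.inl F))
      (fun F₁ F₂ F₁' F₂' f' => hall (Sum.inr (F₁, F₂, F₁', F₂', f')))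
  refine ⟨k, ?_, main true⟩
  have h := main false
  have e : tw false * k = k := one_mul k
  rwa [e] at h

end P697e97
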