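import Pool.Agent.Lib.P697e97.NextFull

/-!
The direct limit of the stages.  `V k := (stage k).V`, and `V (k+1) = V k ⊕ NewV (stage k)` holds by
`rfl` (`Stage.next`).  The limit type is `L := Σ n, Nn n` with `Nn 0 = (stage 0).V` and
`Nn (n+1) = NewV (stage n)`, and `ι k : (stage k).V → L` is the canonical injection.
-/

set_option autoImplicit false

namespace P697e97

/-- The vertices which are new at level `n`. -/
def Nn : ℕ → Type
  | 0 => (stage 0).V
  | n + 1 => NewV (stage n)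

/-- The vertices of the limit. -/
def L : Type := Σ n, Nn n

/-- The canonical maps into the limit. -/
def ι : (k : ℕ) → (stage k).V → L
  | 0 => fun v => ⟨0, v⟩
  | k + 1 => fun v => Sum.elim (α := (stage k).V) (β := NewV (stage k)) (ι k)
      (fun w => (⟨k + 1, w⟩ : L)) v

/-- The inclusion of a stage into the next one. -/
def up (k : ℕ) (v : (stage k).V) : (stage (k + 1)).V :=
  (Sum.inl v : (stage k).V ⊕ NewV (stage k))

/-- A new vertex as a vertex of its stage. -/
def nw (k : ℕ) (w : NewV (stage k)) : (stage (k + 1)).V :=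
  (Sum.inr w : (stage k).V ⊕ NewV (stage k))

theorem cases_next (k : ℕ) (v : (stage (k + 1)).V) : (∃ u, v = up k u) ∨ ∃ w, v = nw k w := by
  have h : ∀ v : (stage k).V ⊕ NewV (stage k), (∃ u, v = Sum.inl u) ∨ ∃ w, v = Sum.inr w := by
    rintro (u | w)
    · exact Or.inl ⟨u, rfl⟩
    · exact Or.inr ⟨w, rfl⟩
  exact h v

theorem up_inj {k : ℕ} {a b : (stage k).V} (h : up k a = up k b) : a = b :=
  Sum.inl_injective h

theorem ι_up (k : ℕ) (v : (stage k).V) : ι (k + 1) (up k v) = ι k v := rfl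

theorem ι_nw (k : ℕ) (w : NewV (stage k)) : ι (k + 1) (nw k w) = (⟨k + 1, w⟩ : L) := rfl

theorem ι_le (k : ℕ) (v : (stage k).V) : (ι k v).1 ≤ k := by
  induction k with
  | zero => exact le_rfl
  | succ k ih =>
    rcases cases_next k v with ⟨u, rfl⟩ | ⟨w, rfl⟩
    · rw [ι_up]
      exact (ih u).trans (Nat.le_succ k)
    · rw [ι_nw]

theorem ι_inj (k : ℕ) : Function.Injective (ι k) := by
  induction k with
  | zero =>
    intro a b h
    have h' : (⟨0, a⟩ : Σ n, Nn n) = ⟨0, b⟩ := h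
    exact eq_of_heq (Sigma.mk.inj h').2
  | succ k ih =>
    intro a b h
    rcases cases_next k a with ⟨u, rfl⟩ | ⟨w, rfl⟩ <;>
      rcases cases_next k b with ⟨u', rfl⟩ | ⟨w', rfl⟩
    · rw [ι_up, ι_up] at h
      rw [ih h]
    · exfalso
      rw [ι_up, ι_nw] at h
      have h1 := ι_le k u
      rw [h] at h1
      exact absurd h1 (by simp)
    · exfalso
      rw [ι_up, ι_nw] at h
      have h1 := ι_le k u'
      rw [← h] at h1
      exact absurd h1 (by simp)
    · have h' : (⟨k + 1, w⟩ : Σ n, Nn n) = ⟨k + 1, w'⟩ := h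
      have h2 : w = w' := eq_of_heq (Sigma.mk.inj h').2
      rw [h2]

theorem ι_surj (x : L) : ∃ v, ι x.1 v = x := by
  rcases x with ⟨n, w⟩
  cases n with
  | zero => exact ⟨w, rfl⟩
  | succ n => exact ⟨nw n w, rfl⟩

theorem ι_lift (k l : ℕ) (h : k ≤ l) (v : (stage k).V) : ∃ v', ι l v' = ι k v := by
  induction l, h using Nat.le_induction with
  | base => exact ⟨v, rfl⟩
  | succ l _ ih =>
    obtain ⟨v', hv'⟩ := ih
    exact ⟨up l v', hv'⟩

theorem exists_ι (k : ℕ) (x : L) (h : x.1 ≤ k) : ∃ v, ι k v = x := by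
  obtain ⟨v, hv⟩ := ι_surj x
  obtain ⟨v', hv'⟩ := ι_lift x.1 k h v
  exact ⟨v', hv'.trans hv⟩

theorem exists_ι₂ (x y : L) : ∃ k a b, ι k a = x ∧ ι k b = y := by
  obtain ⟨a, ha⟩ := exists_ι (max x.1 y.1) x (le_max_left _ _)
  obtain ⟨b, hb⟩ := exists_ι (max x.1 y.1) y (le_max_right _ _)
  exact ⟨_, a, b, ha, hb⟩

/-- Functions on the limit. -/
def desc {X : Type} (f : (k : ℕ) → (stage k).V → X) : L → X
  | ⟨0, v⟩ => f 0 v
  | ⟨n + 1, w⟩ => f (n + 1) (nw n w)

theorem desc_ι {X : Type} (f : (k : ℕ) → (stage k).V → X) (hf : ∀ k v, f (k + 1) (up k v) = f k v)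
    (k : ℕ) (v : (stage k).V) : desc f (ι k v) = f k v := by
  induction k with
  | zero => rfl
  | succ k ih =>
    rcases cases_next k v with ⟨u, rfl⟩ | ⟨w, rfl⟩
    · rw [ι_up, ih, hf]
    · rfl

/-- The support in the limit. -/
def suppL : L → Finset ℕ := desc (fun k v => (stage k).supp v)

theorem suppL_ι (k : ℕ) (v : (stage k).V) : suppL (ι k v) = (stage k).supp v :=
  desc_ι _ (fun _ _ => rfl) k v

theorem card_suppL (x : L) : (suppL x).card = x.1 + 1 := by
  rcases x with ⟨n, w⟩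
  cases n with
  | zero => exact Finset.card_singleton _
  | succ n =>
    have h : (suppL ⟨n + 1, w⟩).card = (stage n).n + 1 := NewV.hF (S := stage n) w
    rw [h, stage_n]

theorem fst_le_of_supp {x : L} {F : Finset ℕ} (h : suppL x ⊆ F) : x.1 + 1 ≤ F.card := by
  rw [← card_suppL]
  exact Finset.card_le_card h

/-- The action in the limit. -/
def actL (σ : Equiv.Perm ℕ) : L → L := desc (fun k v => ι k ((stage k).act σ v))

theorem actL_ι (σ : Equiv.Perm ℕ) (k : ℕ) (v : (stage k).V) :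
    actL σ (ι k v) = ι k ((stage k).act σ v) :=
  desc_ι _ (fun _ _ => rfl) k v

theorem adj_up (k : ℕ) (a b : (stage k).V) :
    (stage (k + 1)).G.Adj (up k a) (up k b) ↔ (stage k).G.Adj a b :=
  adj_inl (S := stage k) a b

theorem adj_lift (k l : ℕ) (h : k ≤ l) (a b : (stage k).V) (a' b' : (stage l).V)
    (ha : ι k a = ι l a') (hb : ι k b = ι l b') :
    (stage k).G.Adj a b ↔ (stage l).G.Adj a' b' := by
  induction l, h using Nat.le_induction with
  | base =>
    rw [ι_inj k ha, ι_inj k hb]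
  | succ l hl ih =>
    obtain ⟨a₁, ha₁⟩ := ι_lift k l hl a
    obtain ⟨b₁, hb₁⟩ := ι_lift k l hl b
    rw [ih a₁ b₁ ha₁.symm hb₁.symm]
    have h1 : a' = up l a₁ := ι_inj (l + 1) (by rw [ι_up, ha₁, ha])
    have h2 : b' = up l b₁ := ι_inj (l + 1) (by rw [ι_up, hb₁, hb])
    rw [h1, h2, adj_up]

/-- The limit graph. -/
def GLim : SimpleGraph L where
  Adj x y := ∃ k a b, ι k a = x ∧ ι k b = y ∧ (stage k).G.Adj a b
  symm := ⟨fun _ _ ⟨k, a, b, ha, hb, h⟩ => ⟨k, b, a, hb, ha, h.symm⟩⟩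
  loopless := ⟨fun _ ⟨k, _, _, ha, hb, h⟩ => h.ne (ι_inj k (ha.trans hb.symm))⟩

theorem GL_adj (k : ℕ) (a b : (stage k).V) :
    GLim.Adj (ι k a) (ι k b) ↔ (stage k).G.Adj a b := by
  constructor
  · rintro ⟨l, a', b', ha, hb, h⟩
    rcases le_total k l with hkl | hkl
    · exact (adj_lift k l hkl a b a' b' ha.symm hb.symm).2 h
    · exact (adj_lift l k hkl a' b' a b ha hb).1 h
  · intro h
    exact ⟨k, a, b, rfl, rfl, h⟩

theorem actL_one (x : L) : actL 1 x = x := by
  obtain ⟨v, hv⟩ := ι_surj x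
  rw [← hv, actL_ι, map_one]
  rfl

theorem actL_mul (σ τ : Equiv.Perm ℕ) (x : L) : actL (σ * τ) x = actL σ (actL τ x) := by
  obtain ⟨v, hv⟩ := ι_surj x
  rw [← hv, actL_ι, actL_ι, actL_ι, map_mul]
  rfl

theorem GL_adj_act (σ : Equiv.Perm ℕ) (x y : L) :
    GLim.Adj (actL σ x) (actL σ y) ↔ GLim.Adj x y := by
  obtain ⟨k, a, b, rfl, rfl⟩ := exists_ι₂ x y
  rw [actL_ι, actL_ι, GL_adj, GL_adj]
  exact ((stage k).act σ).map_adj_iff

/-- The action as a homomorphism. -/
def actHomL : Equiv.Perm ℕ →* (GLim ≃g GLim) where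
  toFun σ :=
    { toFun := actL σ
      invFun := actL σ⁻¹
      left_inv := fun a => by rw [← actL_mul, inv_mul_cancel, actL_one]
      right_inv := fun a => by rw [← actL_mul, mul_inv_cancel, actL_one]
      map_rel_iff' := by
        intro a b
        exact GL_adj_act σ a b }
  map_one' := by
    apply RelIso.ext
    intro a
    exact actL_one a
  map_mul' σ τ := by
    apply RelIso.ext
    intro a
    exact actL_mul σ τ a

theorem suppL_act (σ : Equiv.Perm ℕ) (x : L) :
    suppL (actL σ x) = (suppL x).map σ.toEmbedding := by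
  obtain ⟨v, hv⟩ := ι_surj x
  rw [← hv, actL_ι, suppL_ι, suppL_ι]
  exact (stage x.1).supp_act σ v

theorem actL_fix (σ : Equiv.Perm ℕ) (x : L) (h : ∀ i ∈ suppL x, σ i = i) : actL σ x = x := by
  obtain ⟨v, hv⟩ := ι_surj x
  rw [← hv] at h ⊢
  rw [suppL_ι] at h
  rw [actL_ι, (stage x.1).act_fix σ v h]

theorem finL (F : Finset ℕ) : {x : L | suppL x ⊆ F}.Finite := by
  refine (((stage F.card).fin F).image (ι F.card)).subset ?_
  intro x hx
  have hx' : suppL x ⊆ F := hx
  have h1 := fst_le_of_supp hx'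
  obtain ⟨v, hv⟩ := exists_ι F.card x (by omega)
  refine ⟨v, ?_, hv⟩
  show (stage F.card).supp v ⊆ F
  rw [← suppL_ι, hv]
  exact hx'

theorem nestedL (x y : L) (h : GLim.Adj x y) : suppL x ⊆ suppL y ∨ suppL y ⊆ suppL x := by
  obtain ⟨k, a, b, rfl, rfl, h⟩ := h
  rw [suppL_ι, suppL_ι]
  exact (stage k).nested a b h

/-- The limit system. -/
def limSys : Sys where
  V := L
  G := GLim
  act := actHomL
  supp := suppL
  supp_act := suppL_act
  act_fix := actL_fix
  fin := finL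
  nested := nestedL

theorem full_up (k : ℕ) (F : Finset ℕ) (hF : F.card = k + 2)
    (p : Finset ((stage k).V × (stage k).V)) (hp : PI (stage k).G (stage k).G p)
    (hpF : ∀ a ∈ p, (stage k).supp a.1 ⊆ F ∧ (stage k).supp a.2 ⊆ F) :
    ∃ q : Finset ((stage (k + 1)).V × (stage (k + 1)).V), (stage (k + 1)).Full F q ∧
      ∀ a ∈ p, (up k a.1, up k a.2) ∈ q :=
  next_full (stage k) F (by rw [hF, stage_n]) p hp hpF

theorem ext_up (k : ℕ) (F : Finset ℕ) (hF : F.card = k + 2) (U W : Finset (stage k).V)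
    (hUW : Disjoint U W) (hU : ∀ u ∈ U, (stage k).supp u ⊆ F)
    (hW : ∀ w ∈ W, (stage k).supp w ⊆ F) (x : (stage k).V)
    (hx : (stage k).supp x ⊆ F) (hxU : x ∉ U) (hxW : x ∉ W) :
    ∃ z : (stage (k + 1)).V, (stage (k + 1)).supp z = F ∧
      (∀ u ∈ U, (stage (k + 1)).G.Adj z (up k u)) ∧
      ∀ w ∈ W, ¬ (stage (k + 1)).G.Adj z (up k w) :=
  next_ext (stage k) F (by rw [hF, stage_n]) U W hUW hU hW x hx hxU hxW

theorem closure_aux (p : Finset (L × L)) (hp' : PI GLim GLim p) (F : Finset ℕ) :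
    ∃ (F' : Finset ℕ) (q : Finset (L × L)), F ⊆ F' ∧ p ⊆ q ∧ PI GLim GLim q ∧
      (∀ a ∈ q, suppL a.1 ⊆ F' ∧ suppL a.2 ⊆ F') ∧
      (∀ v, suppL v ⊆ F' → ∃ w, (v, w) ∈ q) ∧ ∀ w, suppL w ⊆ F' → ∃ v, (v, w) ∈ q := by
  classical
  set F₀ : Finset ℕ := F ∪ p.biUnion (fun a => suppL a.1 ∪ suppL a.2) with hF₀
  set k := F₀.card with hk
  obtain ⟨F', hF', hcard⟩ := Infinite.exists_superset_card_eq F₀ (k + 2) (by omega)
  have hsub : ∀ a ∈ p, suppL a.1 ⊆ F₀ ∧ suppL a.2 ⊆ F₀ := by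
    intro a ha
    have h1 : suppL a.1 ∪ suppL a.2 ⊆ p.biUnion (fun a => suppL a.1 ∪ suppL a.2) :=
      Finset.subset_biUnion_of_mem (fun a : L × L => suppL a.1 ∪ suppL a.2) ha
    have h2 := h1.trans (Finset.subset_union_right (s₁ := F))
    exact ⟨Finset.subset_union_left.trans h2, Finset.subset_union_right.trans h2⟩
  have hinj : Function.Injective (Prod.map (ι k) (ι k)) := (ι_inj k).prodMap (ι_inj k)
  set p₀ : Finset ((stage k).V × (stage k).V) := p.preimage (Prod.map (ι k) (ι k)) hinj.injOn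
    with hp₀
  have hmem : ∀ a, a ∈ p₀ ↔ (ι k a.1, ι k a.2) ∈ p := by
    intro a
    rw [hp₀, Finset.mem_preimage]
    rfl
  have hpi : PI (stage k).G (stage k).G p₀ := by
    intro a ha b hb
    have h := hp' _ ((hmem a).1 ha) _ ((hmem b).1 hb)
    refine ⟨?_, ?_⟩
    · have := h.1
      simp only [(ι_inj k).eq_iff] at this
      exact this
    · have := h.2
      simp only [GL_adj] at this
      exact this
  obtain ⟨q, hq', hpq⟩ := full_up k F' hcard p₀ hpi (by
    intro a ha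
    have h := hsub _ ((hmem a).1 ha)
    rw [← suppL_ι, ← suppL_ι]
    exact ⟨h.1.trans hF', h.2.trans hF'⟩)
  refine ⟨F', q.image (Prod.map (ι (k + 1)) (ι (k + 1))), ?_, ?_, ?_, ?_, ?_, ?_⟩
  · exact Finset.subset_union_left.trans hF'
  · intro a ha
    have h := hsub a ha
    have h1 := fst_le_of_supp h.1
    have h2 := fst_le_of_supp h.2
    obtain ⟨u, hu⟩ := exists_ι k a.1 (by omega)
    obtain ⟨v, hv⟩ := exists_ι k a.2 (by omega)
    rw [Finset.mem_image]
    refine ⟨(up k u, up k v), ?_, ?_⟩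
    · refine hpq (u, v) ((hmem (u, v)).2 ?_)
      show (ι k u, ι k v) ∈ p
      rw [hu, hv]
      exact ha
    · show (ι (k + 1) (up k u), ι (k + 1) (up k v)) = a
      rw [ι_up, ι_up, hu, hv]
  · intro a ha b hb
    rw [Finset.mem_image] at ha hb
    obtain ⟨a', ha', rfl⟩ := ha
    obtain ⟨b', hb', rfl⟩ := hb
    have h := hq'.pi a' ha' b' hb'
    refine ⟨?_, ?_⟩
    · show ι (k + 1) a'.1 = ι (k + 1) b'.1 ↔ ι (k + 1) a'.2 = ι (k + 1) b'.2
      rw [(ι_inj (k + 1)).eq_iff, (ι_inj (k + 1)).eq_iff]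
      exact h.1
    · show GLim.Adj (ι (k + 1) a'.1) (ι (k + 1) b'.1) ↔ GLim.Adj (ι (k + 1) a'.2) (ι (k + 1) b'.2)
      rw [GL_adj, GL_adj]
      exact h.2
  · intro a ha
    rw [Finset.mem_image] at ha
    obtain ⟨a', ha', rfl⟩ := ha
    show suppL (ι (k + 1) a'.1) ⊆ F' ∧ suppL (ι (k + 1) a'.2) ⊆ F'
    rw [suppL_ι, suppL_ι]
    exact hq'.le a' ha'
  · intro v hv
    have h1 := fst_le_of_supp hv
    obtain ⟨u, rfl⟩ := exists_ι (k + 1) v (by omega)
    rw [suppL_ι] at hv
    obtain ⟨w, hw⟩ := hq'.dom u hv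
    exact ⟨ι (k + 1) w, Finset.mem_image.2 ⟨(u, w), hw, rfl⟩⟩
  · intro v hv
    have h1 := fst_le_of_supp hv
    obtain ⟨u, rfl⟩ := exists_ι (k + 1) v (by omega)
    rw [suppL_ι] at hv
    obtain ⟨w, hw⟩ := hq'.ran u hv
    exact ⟨ι (k + 1) w, Finset.mem_image.2 ⟨(w, u), hw, rfl⟩⟩

theorem limSys_closure : limSys.Closure := by
  intro p hp F
  obtain ⟨F', q, h1, h2, h3, h4, h5, h6⟩ := closure_aux p hp F
  exact ⟨F', q, h1, h2, h3, h4, h5, h6⟩

theorem limSys_rand : Rand GLim := by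
  classical
  refine ⟨?_, ?_⟩
  · have h : (⋃ F : Finset ℕ, {x : L | suppL x ⊆ F}).Countable :=
      Set.countable_iUnion (fun F => (finL F).countable)
    have h2 : (⋃ F : Finset ℕ, {x : L | suppL x ⊆ F}) = Set.univ := by
      rw [Set.eq_univ_iff_forall]
      intro x
      rw [Set.mem_iUnion]
      exact ⟨suppL x, Finset.Subset.refl _⟩
    rw [h2] at h
    exact Set.countable_univ_iff.1 h
  · intro U W hUW
    set F₀ : Finset ℕ := U.biUnion suppL ∪ W.biUnion suppL with hF₀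
    have hU : ∀ u ∈ U, suppL u ⊆ F₀ := fun u hu =>
      (Finset.subset_biUnion_of_mem suppL hu).trans Finset.subset_union_left
    have hW : ∀ u ∈ W, suppL u ⊆ F₀ := fun u hu =>
      (Finset.subset_biUnion_of_mem suppL hu).trans Finset.subset_union_right
    obtain ⟨a, ha⟩ := Infinite.exists_notMem_finset F₀
    set k := (insert a F₀).card with hk
    obtain ⟨F', hF', hcard⟩ := Infinite.exists_superset_card_eq (insert a F₀) (k + 2) (by omega)
    have haF' : a ∈ F' := hF' (Finset.mem_insert_self _ _)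
    have h0F' : F₀ ⊆ F' := (Finset.subset_insert _ _).trans hF'
    have hfst : ∀ x : L, suppL x ⊆ F₀ → x.1 ≤ k := by
      intro x hx
      have := fst_le_of_supp (hx.trans (Finset.subset_insert a F₀))
      omega
    -- the base vertex
    obtain ⟨x, hx⟩ := exists_ι k (⟨0, a⟩ : Σ n, Nn n) (Nat.zero_le _)
    have hxs : suppL (ι k x) = {a} := by
      rw [hx]
      rfl
    have hxU : ι k x ∉ U := by
      intro h
      have := hU _ h
      rw [hxs] at this
      exact ha (this (Finset.mem_singleton_self a))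
    have hxW : ι k x ∉ W := by
      intro h
      have := hW _ h
      rw [hxs] at this
      exact ha (this (Finset.mem_singleton_self a))
    have hmU : ∀ u, u ∈ U.preimage (ι k) (ι_inj k).injOn ↔ ι k u ∈ U := fun u =>
      Finset.mem_preimage
    have hmW : ∀ u, u ∈ W.preimage (ι k) (ι_inj k).injOn ↔ ι k u ∈ W := fun u =>
      Finset.mem_preimage
    obtain ⟨z, hz, hzU, hzW⟩ := ext_up k F' hcard
      (U.preimage (ι k) (ι_inj k).injOn) (W.preimage (ι k) (ι_inj k).injOn)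
      (by
        rw [Finset.disjoint_left]
        intro u hu hw
        exact Finset.disjoint_left.1 hUW ((hmU u).1 hu) ((hmW u).1 hw))
      (by
        intro u hu
        rw [← suppL_ι]
        exact (hU _ ((hmU u).1 hu)).trans h0F')
      (by
        intro u hu
        rw [← suppL_ι]
        exact (hW _ ((hmW u).1 hu)).trans h0F')
      x
      (by
        rw [← suppL_ι, hxs]
        exact Finset.singleton_subset_iff.2 haF')
      (fun h => hxU ((hmU x).1 h)) (fun h => hxW ((hmW x).1 h))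
    have hzs : suppL (ι (k + 1) z) = F' := by
      rw [suppL_ι]
      exact hz
    refine ⟨ι (k + 1) z, ?_, ?_, ?_, ?_⟩
    · intro h
      have := hU _ h
      rw [hzs] at this
      exact ha (this haF')
    · intro h
      have := hW _ h
      rw [hzs] at this
      exact ha (this haF')
    · intro u hu
      obtain ⟨u₀, rfl⟩ := exists_ι k u (hfst u (hU u hu))
      rw [← ι_up k u₀, GL_adj]
      exact hzU u₀ ((hmU u₀).2 hu)
    · intro u hu
      obtain ⟨u₀, rfl⟩ := exists_ι k u (hfst u (hW u hu))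
      rw [← ι_up k u₀, GL_adj]
      exact hzW u₀ ((hmW u₀).2 hu)

theorem exists_sys : ∃ S : Sys, S.Closure ∧ Rand S.G ∧ ∀ v, S.supp v ≠ ∅ := by
  refine ⟨limSys, limSys_closure, limSys_rand, ?_⟩
  intro (v : L) h
  have h1 := card_suppL v
  have h2 : suppL v = ∅ := h
  rw [h2, Finset.card_empty] at h1
  omega

end P697e97
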