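import Pool.Agent.Lib.P697e97.RandIso
import Pool.Agent.Lib.P697e97.Abert
import Pool.Agent.Lib.P697e97.Generic
import Pool.Agent.Lib.P697e97.BackForth
import Pool.Agent.Lib.P697e97.Limit

/-!
Assembly: the automorphism group of the random graph is a product of 120 abelian subgroups.
-/

set_option autoImplicit false

namespace P697e97

theorem sys_AP {n : ℕ} (hn : AP n (Set.univ : Set (Equiv.Perm ℕ))) (S : Sys) (hC : S.Closure)
    (hs : ∀ v, S.supp v ≠ ∅) :
    AP (n + n + n) (Set.univ : Set (S.G ≃g S.G)) := by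
  obtain ⟨g₀, hg₀, -⟩ := S.exists_gen hC 1
  have h1 : AP n (S.act '' (Set.univ : Set (Equiv.Perm ℕ))) := hn.map S.act
  have h2 : AP n (((MulAut.conj g₀).toMonoidHom.comp S.act) '' (Set.univ : Set (Equiv.Perm ℕ))) :=
    hn.map _
  refine ((h1.mul h2).mul h1).mono ?_
  intro g _
  obtain ⟨k, hk, hgk⟩ := S.exists_gen hC g
  obtain ⟨σ, τ, h3⟩ := Sys.Gen.conj hs hg₀ hk
  obtain ⟨σ', τ', h4⟩ := Sys.Gen.conj hs hg₀ hgk
  refine ⟨S.act σ' * (g₀ * S.act (τ'⁻¹ * τ) * g₀⁻¹), ⟨S.act σ', ⟨σ', trivial, rfl⟩,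
    g₀ * S.act (τ'⁻¹ * τ) * g₀⁻¹, ⟨τ'⁻¹ * τ, trivial, rfl⟩, rfl⟩, S.act σ⁻¹,
    ⟨σ⁻¹, trivial, rfl⟩, ?_⟩
  have h5 : k = S.act σ * g₀ * (S.act τ)⁻¹ := by
    rw [← h3, mul_inv_cancel_right]
  have h6 : g * k = S.act σ' * g₀ * (S.act τ')⁻¹ := by
    rw [← h4, mul_inv_cancel_right]
  have h7 : g = g * k * k⁻¹ := by rw [mul_inv_cancel_right]
  rw [h7, h6, h5, map_mul, map_inv, map_inv]
  group

/-- Conjugation by an isomorphism of graphs. -/
def conjIso {V W : Type*} {G : SimpleGraph V} {H : SimpleGraph W} (e : G ≃g H) :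
    (H ≃g H) →* (G ≃g G) where
  toFun f := (e.trans f).trans e.symm
  map_one' := by
    apply RelIso.ext
    intro a
    exact e.symm_apply_apply a
  map_mul' f g := by
    apply RelIso.ext
    intro a
    show e.symm (f (g (e a))) = e.symm (f (e (e.symm (g (e a)))))
    rw [e.apply_symm_apply]

theorem rand_AP {n : ℕ} (hn : AP n (Set.univ : Set (Equiv.Perm ℕ))) {V : Type*}
    {G : SimpleGraph V} (hG : Rand G) : AP (n + n + n) (Set.univ : Set (G ≃g G)) := by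
  obtain ⟨S, hC, hR, hs⟩ := exists_sys
  obtain ⟨e⟩ := hG.iso hR
  refine ((sys_AP hn S hC hs).map (conjIso e)).mono ?_
  intro g _
  refine ⟨(e.symm.trans g).trans e, trivial, ?_⟩
  apply RelIso.ext
  intro a
  show e.symm (e (g (e.symm (e a)))) = g a
  rw [e.symm_apply_apply, e.symm_apply_apply]

end P697e97
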