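import Pool.Agent.Lib.P697e97.Base

/-!
The recursive step of the construction.  `Stage` = a `Sys` in which all supports have at most `n`
elements; `next` adds the vertices `(F, x, ξ)` with `F.card = n + 1`, `x ∈ T(F)`,
`ξ : T(F) → ZMod 3` not zero.
-/

set_option autoImplicit false

namespace P697e97

/-- A stage of the construction. -/
structure Stage extends Sys where
  /-- bound for the size of the supports -/
  n : ℕ
  card_le : ∀ v, (supp v).card ≤ n

/-- The new vertices over a stage. -/
@[ext] structure NewV (S : Stage) : Type where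
  /-- the support -/
  F : Finset ℕ
  /-- the first component -/
  x : S.V
  /-- the second component -/
  ξ : S.V → ZMod 3
  hF : F.card = S.n + 1
  hx : S.supp x ⊆ F
  hξ : ∀ y, ¬ S.supp y ⊆ F → ξ y = 0
  ne : ξ ≠ 0

namespace NewV

variable {S : Stage}

theorem supp_inv_sub (σ : Equiv.Perm ℕ) (F : Finset ℕ) (y : S.V) :
    S.supp (S.act σ⁻¹ y) ⊆ F ↔ S.supp y ⊆ F.map σ.toEmbedding := by
  rw [S.supp_act]
  constructor
  · intro h i hi
    rw [Finset.mem_map]
    refine ⟨σ⁻¹ i, h ?_, by simp⟩
    rw [Finset.mem_map]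
    exact ⟨i, hi, rfl⟩
  · intro h i hi
    rw [Finset.mem_map] at hi
    obtain ⟨j, hj, rfl⟩ := hi
    have := h hj
    rw [Finset.mem_map] at this
    obtain ⟨k, hk, rfl⟩ := this
    simpa using hk

/-- The action on the new vertices. -/
def act (σ : Equiv.Perm ℕ) (w : NewV S) : NewV S where
  F := w.F.map σ.toEmbedding
  x := S.act σ w.x
  ξ := fun y => w.ξ (S.act σ⁻¹ y)
  hF := by rw [Finset.card_map, w.hF]
  hx := by rw [S.supp_act]; exact Finset.map_subset_map.2 w.hx
  hξ := by
    intro y hy
    apply w.hξ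
    rwa [supp_inv_sub]
  ne := by
    intro h
    apply w.ne
    funext y
    have := congrFun h (S.act σ y)
    simpa using this

end NewV

/-- The core `(x, ξ)` of a vertex of the next stage. -/
def core {S : Stage} : S.V ⊕ NewV S → S.V × (S.V → ZMod 3)
  | Sum.inl u => (u, 0)
  | Sum.inr w => (w.x, w.ξ)

/-- The support of a vertex of the next stage. -/
def suppN {S : Stage} : S.V ⊕ NewV S → Finset ℕ
  | Sum.inl u => S.supp u
  | Sum.inr w => w.F

/-- The action on the vertices of the next stage. -/
def actN {S : Stage} (σ : Equiv.Perm ℕ) : S.V ⊕ NewV S → S.V ⊕ NewV S :=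
  Sum.map (S.act σ) (NewV.act σ)

/-- The graph of the next stage. -/
def GN (S : Stage) : SimpleGraph (S.V ⊕ NewV S) where
  Adj a b := (suppN a ⊆ suppN b ∨ suppN b ⊆ suppN a) ∧ (eppa S.G).Adj (core a) (core b)
  symm := ⟨fun _ _ h => ⟨h.1.symm, h.2.symm⟩⟩
  loopless := ⟨fun _ h => (eppa S.G).loopless.irrefl _ h.2⟩


variable {S : Stage}

theorem mul_inv_act (σ τ : Equiv.Perm ℕ) (y : S.V) :
    S.act (σ * τ)⁻¹ y = S.act τ⁻¹ (S.act σ⁻¹ y) := by
  rw [mul_inv_rev, map_mul, RelIso.mul_apply]

theorem NewV.act_one (w : NewV S) : NewV.act 1 w = w := by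
  ext1
  · exact Finset.map_refl
  · simp [NewV.act]
  · funext y; simp [NewV.act]

theorem NewV.act_mul (σ τ : Equiv.Perm ℕ) (w : NewV S) :
    NewV.act (σ * τ) w = NewV.act σ (NewV.act τ w) := by
  ext1
  · simp only [NewV.act]
    rw [Finset.map_map]
    rfl
  · simp [NewV.act]
  · funext y
    simp only [NewV.act]
    rw [mul_inv_act]

theorem actN_one (a : S.V ⊕ NewV S) : actN 1 a = a := by
  rcases a with u | w
  · simp [actN]
  · simp [actN, NewV.act_one]

theorem actN_mul (σ τ : Equiv.Perm ℕ) (a : S.V ⊕ NewV S) :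
    actN (σ * τ) a = actN σ (actN τ a) := by
  rcases a with u | w
  · simp [actN]
  · simp [actN, NewV.act_mul]

theorem suppN_act (σ : Equiv.Perm ℕ) (a : S.V ⊕ NewV S) :
    suppN (actN σ a) = (suppN a).map σ.toEmbedding := by
  rcases a with u | w
  · exact S.supp_act σ u
  · rfl

theorem core_act (σ : Equiv.Perm ℕ) (a : S.V ⊕ NewV S) :
    core (actN σ a) = (S.act σ (core a).1, fun y => (core a).2 (S.act σ⁻¹ y)) := by
  rcases a with u | w
  · rfl
  · rfl

theorem eppa_act (σ : Equiv.Perm ℕ) (a b : S.V × (S.V → ZMod 3)) :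
    (eppa S.G).Adj (S.act σ a.1, fun y => a.2 (S.act σ⁻¹ y))
      (S.act σ b.1, fun y => b.2 (S.act σ⁻¹ y)) ↔ (eppa S.G).Adj a b := by
  simp only [eppa]
  rw [(S.act σ).map_adj_iff]
  have h : ∀ y, S.act σ⁻¹ (S.act σ y) = y := by
    intro y
    rw [← RelIso.mul_apply, ← map_mul]
    simp
  rw [h, h]
  simp

theorem GN_adj_act (σ : Equiv.Perm ℕ) (a b : S.V ⊕ NewV S) :
    (GN S).Adj (actN σ a) (actN σ b) ↔ (GN S).Adj a b := by
  simp only [GN]
  rw [suppN_act, suppN_act, core_act, core_act, eppa_act, Finset.map_subset_map,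
    Finset.map_subset_map]

/-- The action on the next stage as a homomorphism. -/
def actHom (S : Stage) : Equiv.Perm ℕ →* (GN S ≃g GN S) where
  toFun σ :=
    { toFun := actN σ
      invFun := actN σ⁻¹
      left_inv := fun a => by rw [← actN_mul]; simp [actN_one]
      right_inv := fun a => by rw [← actN_mul]; simp [actN_one]
      map_rel_iff' := by
        intro a b
        exact GN_adj_act σ a b }
  map_one' := by
    apply RelIso.ext
    intro a
    exact actN_one a
  map_mul' σ τ := by
    apply RelIso.ext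
    intro a
    exact actN_mul σ τ a

theorem actHom_apply (σ : Equiv.Perm ℕ) (a : S.V ⊕ NewV S) : actHom S σ a = actN σ a := rfl

theorem map_eq_self {σ : Equiv.Perm ℕ} {F : Finset ℕ} (h : ∀ i ∈ F, σ i = i) :
    F.map σ.toEmbedding = F := by
  ext i
  rw [Finset.mem_map]
  constructor
  · rintro ⟨j, hj, rfl⟩
    simpa [h j hj] using hj
  · intro hi
    exact ⟨i, hi, h i hi⟩

theorem inv_fix {σ : Equiv.Perm ℕ} {F : Finset ℕ} (h : ∀ i ∈ F, σ i = i) :
    ∀ i ∈ F, σ⁻¹ i = i := by
  intro i hi
  rw [Equiv.Perm.inv_eq_iff_eq]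
  exact (h i hi).symm

theorem actN_fix (σ : Equiv.Perm ℕ) (a : S.V ⊕ NewV S) (h : ∀ i ∈ suppN a, σ i = i) :
    actN σ a = a := by
  rcases a with u | w
  · simp only [actN, Sum.map_inl]
    rw [S.act_fix σ u h]
  · simp only [actN, Sum.map_inr]
    congr 1
    have h' : ∀ i ∈ w.F, σ i = i := h
    ext1
    · exact map_eq_self h'
    · exact S.act_fix σ _ (fun i hi => h' i (w.hx hi))
    · funext y
      simp only [NewV.act]
      by_cases hy : S.supp y ⊆ w.F
      · rw [S.act_fix σ⁻¹ y (fun i hi => inv_fix h' i (hy hi))]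
      · rw [w.hξ y hy]
        apply w.hξ
        rw [NewV.supp_inv_sub, map_eq_self h']
        exact hy

theorem finN (F : Finset ℕ) : {a : S.V ⊕ NewV S | suppN a ⊆ F}.Finite := by
  classical
  have hT := S.fin F
  have : Finite {v : S.V // S.supp v ⊆ F} := hT
  -- an injection into a finite type
  let f : {a : S.V ⊕ NewV S // suppN a ⊆ F} →
      {v : S.V // S.supp v ⊆ F} ⊕
        ({E : Finset ℕ // E ⊆ F} × {v : S.V // S.supp v ⊆ F} × ({v : S.V // S.supp v ⊆ F} → ZMod 3)) :=
    fun a => match a with
      | ⟨Sum.inl u, h⟩ => Sum.inl ⟨u, h⟩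
      | ⟨Sum.inr w, h⟩ => Sum.inr (⟨w.F, h⟩, ⟨w.x, w.hx.trans h⟩, fun y => w.ξ y.1)
  have : Finite {E : Finset ℕ // E ⊆ F} := by
    have : {E : Finset ℕ | E ⊆ F}.Finite := by
      refine (F.powerset.finite_toSet).subset ?_
      intro E hE
      simpa using hE
    exact this
  have hf : Function.Injective f := by
    rintro ⟨a, ha⟩ ⟨b, hb⟩ hab
    rcases a with u | w <;> rcases b with u' | w'
    · simp only [f, Sum.inl.injEq] at hab
      have h1 : u = u' := congrArg Subtype.val hab
      subst h1
      rfl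
    · simp [f] at hab
    · simp [f] at hab
    · simp only [f, Sum.inr.injEq, Prod.mk.injEq] at hab
      obtain ⟨h1', h2', h3⟩ := hab
      have h1 : w.F = w'.F := congrArg Subtype.val h1'
      have h2 : w.x = w'.x := congrArg Subtype.val h2'
      have : w = w' := by
        ext1
        · exact h1
        · exact h2
        · funext y
          by_cases hy : S.supp y ⊆ F
          · exact congrFun h3 ⟨y, hy⟩
          · rw [w.hξ y (fun h => hy (h.trans ha)), w'.hξ y (fun h => hy (h.trans hb))]
      subst this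
      rfl
  have := Finite.of_injective f hf
  exact this

/-- The next stage. -/
def Stage.next (S : Stage) : Stage where
  V := S.V ⊕ NewV S
  G := GN S
  act := actHom S
  supp := suppN
  supp_act := suppN_act
  act_fix := actN_fix
  fin := finN
  nested := fun _ _ h => h.1
  n := S.n + 1
  card_le := by
    rintro (u | w)
    · exact (S.card_le u).trans (Nat.le_succ _)
    · exact w.hF.le

/-- The first stage: the vertices `a ∈ ℕ` and no edges. -/
def Stage.base : Stage where
  V := ℕ
  G := ⊥
  act :=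
    { toFun := fun σ =>
        { toEquiv := σ
          map_rel_iff' := by intro a b; simp }
      map_one' := rfl
      map_mul' := fun _ _ => rfl }
  supp := fun a => {a}
  supp_act := by
    intro σ v
    rw [Finset.map_singleton]
    rfl
  act_fix := by
    intro σ v h
    exact h v (by simp)
  fin := by
    intro F
    refine (F.finite_toSet).subset ?_
    intro a ha
    simpa using ha
  nested := by
    intro u v h
    simp at h
  n := 1
  card_le := by intro v; simp

/-- The stages. -/
def stage : ℕ → Stage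
  | 0 => Stage.base
  | k + 1 => (stage k).next

theorem stage_n (k : ℕ) : (stage k).n = k + 1 := by
  induction k with
  | zero => rfl
  | succ k ih =>
    show (stage k).n + 1 = _
    rw [ih]

theorem supp_inl (u : S.V) : S.next.supp (Sum.inl u) = S.supp u := rfl

theorem supp_inr (w : NewV S) : S.next.supp (Sum.inr w) = w.F := rfl

theorem act_inl (σ : Equiv.Perm ℕ) (u : S.V) :
    S.next.act σ (Sum.inl u) = Sum.inl (S.act σ u) := rfl

theorem adj_inl (u v : S.V) :
    S.next.G.Adj (Sum.inl u : S.V ⊕ NewV S) (Sum.inl v : S.V ⊕ NewV S) ↔ S.G.Adj u v := by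
  show (GN S).Adj (Sum.inl u) (Sum.inl v) ↔ _
  simp only [GN, suppN, core, eppa]
  constructor
  · rintro ⟨-, -, h⟩
    rcases h with h | h
    · exact h.1
    · exfalso
      have := h.2
      simp at this
      revert this
      decide
  · intro h
    exact ⟨S.nested u v h, h.ne, Or.inl ⟨h, by simp⟩⟩

end P697e97
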