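import Pool.Agent.Lib.P697e97.Next
import Pool.Agent.Lib.P697e97.Eppa

/-!
The two properties of the step `Stage.next`: extension of finite isomorphisms and of one-point
types.
-/

set_option autoImplicit false

namespace P697e97

variable {S : Stage}

theorem nf_F_eq {F : Finset ℕ} (hF : F.card = S.n + 1) (w : NewV S) (h : w.F ⊆ F) : w.F = F :=
  Finset.eq_of_subset_of_card_le h (by rw [hF, w.hF])

theorem nf_core_supp {F : Finset ℕ} (a : S.V ⊕ NewV S) (h : suppN a ⊆ F) :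
    S.supp (core a).1 ⊆ F := by
  rcases a with u | w
  · exact h
  · exact w.hx.trans h

theorem nf_adj {F : Finset ℕ} (hF : F.card = S.n + 1) (a b : S.V ⊕ NewV S) (ha : suppN a ⊆ F)
    (hb : suppN b ⊆ F) : (GN S).Adj a b ↔ (eppa S.G).Adj (core a) (core b) := by
  constructor
  · intro h
    exact h.2
  · intro h
    refine ⟨?_, h⟩
    rcases a with u | w
    · rcases b with v | w'
      · have : S.G.Adj u v := by
          rcases h.2 with h' | h'
          · exact h'.1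
          · exfalso
            have := h'.2
            simp only [core] at this
            revert this
            simp only [Pi.zero_apply]
            decide
        exact S.nested u v this
      · left
        have : w'.F = F := nf_F_eq hF w' hb
        show suppN (Sum.inl u) ⊆ w'.F
        rw [this]
        exact ha
    · right
      have : w.F = F := nf_F_eq hF w ha
      show suppN b ⊆ w.F
      rw [this]
      exact hb

/-- extension by zero -/
noncomputable def nfExt (F : Finset ℕ) (ξ : {v : S.V // S.supp v ⊆ F} → ZMod 3) : S.V → ZMod 3 :=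
  open Classical in fun y => if h : S.supp y ⊆ F then ξ ⟨y, h⟩ else 0

theorem nfExt_of {F : Finset ℕ} (ξ : {v : S.V // S.supp v ⊆ F} → ZMod 3)
    (y : {v : S.V // S.supp v ⊆ F}) : nfExt F ξ y.1 = ξ y := by
  simp only [nfExt]
  rw [dif_pos y.2]

theorem nfExt_not {F : Finset ℕ} (ξ : {v : S.V // S.supp v ⊆ F} → ZMod 3) (y : S.V)
    (h : ¬ S.supp y ⊆ F) : nfExt F ξ y = 0 := by
  simp only [nfExt]
  rw [dif_neg h]

theorem nfExt_ne {F : Finset ℕ} (ξ : {v : S.V // S.supp v ⊆ F} → ZMod 3) (h : ξ ≠ 0) :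
    nfExt F ξ ≠ 0 := by
  intro h'
  apply h
  funext y
  rw [← nfExt_of ξ y, h']
  rfl

/-- the code of a vertex -/
def nfEnc (F : Finset ℕ) (a : {a : S.V ⊕ NewV S // suppN a ⊆ F}) :
    {v : S.V // S.supp v ⊆ F} × ({v : S.V // S.supp v ⊆ F} → ZMod 3) :=
  (⟨(core a.1).1, nf_core_supp a.1 a.2⟩, fun y => (core a.1).2 y.1)

/-- the new vertex with a given code -/
noncomputable def nfNew (F : Finset ℕ) (hF : F.card = S.n + 1)
    (c : {v : S.V // S.supp v ⊆ F} × ({v : S.V // S.supp v ⊆ F} → ZMod 3)) (h : c.2 ≠ 0) :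
    NewV S :=
  ⟨F, c.1.1, nfExt F c.2, hF, c.1.2, fun y hy => nfExt_not c.2 y hy, nfExt_ne c.2 h⟩

/-- decoding -/
noncomputable def nfDec (F : Finset ℕ) (hF : F.card = S.n + 1)
    (c : {v : S.V // S.supp v ⊆ F} × ({v : S.V // S.supp v ⊆ F} → ZMod 3)) :
    {a : S.V ⊕ NewV S // suppN a ⊆ F} :=
  open Classical in
    if h : c.2 = 0 then ⟨Sum.inl c.1.1, c.1.2⟩
    else ⟨Sum.inr (nfNew F hF c h), le_refl F⟩

theorem nfDec_zero (F : Finset ℕ) (hF : F.card = S.n + 1)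
    (c : {v : S.V // S.supp v ⊆ F} × ({v : S.V // S.supp v ⊆ F} → ZMod 3)) (h : c.2 = 0) :
    nfDec F hF c = ⟨Sum.inl c.1.1, c.1.2⟩ := by
  rw [nfDec, dif_pos h]

theorem nfDec_ne (F : Finset ℕ) (hF : F.card = S.n + 1)
    (c : {v : S.V // S.supp v ⊆ F} × ({v : S.V // S.supp v ⊆ F} → ZMod 3)) (h : c.2 ≠ 0) :
    nfDec F hF c = ⟨Sum.inr (nfNew F hF c h), le_refl F⟩ := by
  rw [nfDec, dif_neg h]

/-- the coding of `T(F)` in the next stage -/
noncomputable def nfEquiv (F : Finset ℕ) (hF : F.card = S.n + 1) :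
    {a : S.V ⊕ NewV S // suppN a ⊆ F} ≃
      {v : S.V // S.supp v ⊆ F} × ({v : S.V // S.supp v ⊆ F} → ZMod 3) where
  toFun := nfEnc F
  invFun := nfDec F hF
  left_inv := by
    rintro ⟨a, ha⟩
    rcases a with u | w
    · rw [nfDec_zero F hF _ rfl]
      rfl
    · have hw : w.F = F := nf_F_eq hF w ha
      have h : (nfEnc F (⟨Sum.inr w, ha⟩ : {a : S.V ⊕ NewV S // suppN a ⊆ F})).2 ≠ 0 := by
        intro h
        apply w.ne
        funext y
        by_cases hy : S.supp y ⊆ F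
        · exact congrFun h ⟨y, hy⟩
        · exact w.hξ y (by rw [hw]; exact hy)
      rw [nfDec_ne F hF _ h]
      apply Subtype.ext
      simp only
      congr 1
      ext1
      · exact hw.symm
      · rfl
      · funext y
        by_cases hy : S.supp y ⊆ F
        · exact nfExt_of _ ⟨y, hy⟩
        · rw [w.hξ y (by rw [hw]; exact hy)]
          exact nfExt_not _ y hy
  right_inv := by
    rintro ⟨x, ξ⟩
    by_cases h : ξ = 0
    · subst h
      rw [nfDec_zero F hF _ rfl]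
      rfl
    · rw [nfDec_ne F hF _ h]
      simp only [nfEnc, core, nfNew]
      congr 1
      funext y
      exact nfExt_of ξ y

theorem nfEquiv_adj (F : Finset ℕ) (hF : F.card = S.n + 1)
    (a b : {a : S.V ⊕ NewV S // suppN a ⊆ F}) :
    (eppa (S.G.comap (Subtype.val : {v : S.V // S.supp v ⊆ F} → S.V))).Adj
      (nfEquiv F hF a) (nfEquiv F hF b) ↔ (GN S).Adj a.1 b.1 := by
  rw [nf_adj hF a.1 b.1 a.2 b.2]
  simp only [eppa, nfEquiv, nfEnc, Equiv.coe_fn_mk, SimpleGraph.comap_adj]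
  rw [← Subtype.coe_ne_coe]

theorem next_full (S : Stage) (F : Finset ℕ) (hF : F.card = S.n + 1) (p : Finset (S.V × S.V))
    (hp : PI S.G S.G p) (hpF : ∀ a ∈ p, S.supp a.1 ⊆ F ∧ S.supp a.2 ⊆ F) :
    ∃ q : Finset (S.next.V × S.next.V), S.next.Full F q ∧
      ∀ a ∈ p, ((Sum.inl a.1, Sum.inl a.2) : (S.V ⊕ NewV S) × (S.V ⊕ NewV S)) ∈ q := by
  classical
  have hfin : Finite {v : S.V // S.supp v ⊆ F} := S.fin F
  have hfinN : Finite {a : S.V ⊕ NewV S // suppN a ⊆ F} := finN F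
  have := Fintype.ofFinite {v : S.V // S.supp v ⊆ F}
  have := Fintype.ofFinite {a : S.V ⊕ NewV S // suppN a ⊆ F}
  let pD : Finset ({v : S.V // S.supp v ⊆ F} × {v : S.V // S.supp v ⊆ F}) :=
    Finset.univ.filter (fun a => (a.1.1, a.2.1) ∈ p)
  have hpD : PI (S.G.comap (Subtype.val : {v : S.V // S.supp v ⊆ F} → S.V))
      (S.G.comap (Subtype.val : {v : S.V // S.supp v ⊆ F} → S.V)) pD := by
    intro a ha b hb
    simp only [pD, Finset.mem_filter, Finset.mem_univ, true_and] at ha hb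
    have := hp _ ha _ hb
    simp only [SimpleGraph.comap_adj]
    rw [Subtype.ext_iff, Subtype.ext_iff]
    exact this
  obtain ⟨f, hf⟩ := eppa_extend _ pD hpD
  let e := nfEquiv F hF
  let ψ : {a : S.V ⊕ NewV S // suppN a ⊆ F} ≃ {a : S.V ⊕ NewV S // suppN a ⊆ F} :=
    (e.trans f.toEquiv).trans e.symm
  have hψadj : ∀ a b, (GN S).Adj (ψ a).1 (ψ b).1 ↔ (GN S).Adj a.1 b.1 := by
    intro a b
    rw [← nfEquiv_adj F hF, ← nfEquiv_adj F hF]
    have h1 : ∀ a, nfEquiv F hF (ψ a) = f (nfEquiv F hF a) := by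
      intro a
      exact e.apply_symm_apply _
    rw [h1, h1]
    exact f.map_rel_iff
  obtain ⟨q, hq⟩ : ∃ q : Finset ((S.V ⊕ NewV S) × (S.V ⊕ NewV S)),
      ∀ x, x ∈ q ↔ ∃ a : {a : S.V ⊕ NewV S // suppN a ⊆ F}, (a.1, (ψ a).1) = x := by
    refine ⟨(Set.finite_range (fun a => (a.1, (ψ a).1))).toFinset, ?_⟩
    intro x
    rw [Set.Finite.mem_toFinset]
    rfl
  refine ⟨q, ⟨?_, ?_, ?_, ?_⟩, ?_⟩
  · intro a ha b hb
    obtain ⟨a, rfl⟩ := (hq a).1 ha
    obtain ⟨b, rfl⟩ := (hq b).1 hb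
    exact ⟨⟨fun h => congrArg (fun c => (ψ c).1) (Subtype.ext h),
      fun h => congrArg Subtype.val (ψ.injective (Subtype.ext h))⟩, (hψadj a b).symm⟩
  · intro a ha
    obtain ⟨a, rfl⟩ := (hq a).1 ha
    exact ⟨a.2, (ψ a).2⟩
  · intro v hv
    exact ⟨(ψ ⟨v, hv⟩).1, (hq _).2 ⟨⟨v, hv⟩, rfl⟩⟩
  · intro w hw
    refine ⟨(ψ.symm ⟨w, hw⟩).1, (hq _).2 ⟨ψ.symm ⟨w, hw⟩, ?_⟩⟩
    rw [Equiv.apply_symm_apply]
    rfl
  · intro a ha
    have hmem : ((⟨a.1, (hpF a ha).1⟩, ⟨a.2, (hpF a ha).2⟩) :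
        {v : S.V // S.supp v ⊆ F} × {v : S.V // S.supp v ⊆ F}) ∈ pD := by
      simp only [pD, Finset.mem_filter, Finset.mem_univ, true_and]
      exact ha
    have h1 := hf _ hmem
    have h2 : ψ ⟨Sum.inl a.1, (hpF a ha).1⟩ = ⟨Sum.inl a.2, (hpF a ha).2⟩ := by
      show e.symm (f (e ⟨Sum.inl a.1, _⟩)) = _
      rw [Equiv.symm_apply_eq]
      exact h1
    exact (hq _).2 ⟨⟨Sum.inl a.1, (hpF a ha).1⟩, by rw [h2]⟩

theorem next_ext (S : Stage) (F : Finset ℕ) (hF : F.card = S.n + 1) (U W : Finset S.V)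
    (hUW : Disjoint U W) (hU : ∀ u ∈ U, S.supp u ⊆ F) (hW : ∀ w ∈ W, S.supp w ⊆ F) (x : S.V)
    (hx : S.supp x ⊆ F) (hxU : x ∉ U) (hxW : x ∉ W) :
    ∃ z : S.next.V, S.next.supp z = F ∧
      (∀ u ∈ U, S.next.G.Adj z (Sum.inl u : S.V ⊕ NewV S)) ∧
      ∀ w ∈ W, ¬ S.next.G.Adj z (Sum.inl w : S.V ⊕ NewV S) := by
  classical
  let ξ : S.V → ZMod 3 := fun y =>
    if y = x then 1 else if y ∈ U then (if S.G.Adj x y then 0 else 2)
    else if y ∈ W then 1 else 0
  have hξx : ξ x = 1 := by simp [ξ]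
  have hξU : ∀ u ∈ U, ξ u = if S.G.Adj x u then 0 else 2 := by
    intro u hu
    have h : u ≠ x := fun h => hxU (h ▸ hu)
    simp only [ξ]
    rw [if_neg h, if_pos hu]
  have hξW : ∀ w ∈ W, ξ w = 1 := by
    intro w hw
    have h : w ≠ x := fun h => hxW (h ▸ hw)
    have h2 : w ∉ U := fun h2 => Finset.disjoint_left.1 hUW h2 hw
    simp only [ξ]
    rw [if_neg h, if_neg h2, if_pos hw]
  let z : NewV S := ⟨F, x, ξ, hF, hx, by
    intro y hy
    have h1 : y ≠ x := fun h => hy (h ▸ hx)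
    have h2 : y ∉ U := fun h => hy (hU y h)
    have h3 : y ∉ W := fun h => hy (hW y h)
    simp only [ξ]
    rw [if_neg h1, if_neg h2, if_neg h3], by
    intro h
    have := congrFun h x
    rw [hξx] at this
    exact absurd (show (1 : ZMod 3) = 0 from this) (by decide)⟩
  refine ⟨Sum.inr z, rfl, ?_, ?_⟩
  · intro u hu
    show (GN S).Adj (Sum.inr z) (Sum.inl u)
    refine ⟨Or.inr (hU u hu), ?_, ?_⟩
    · show x ≠ u
      exact fun h => hxU (h ▸ hu)
    · show (S.G.Adj x u ∧ ξ u + 0 = 0) ∨ (¬ S.G.Adj x u ∧ ξ u + 0 = 2)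
      rw [hξU u hu]
      by_cases h : S.G.Adj x u
      · left
        exact ⟨h, by simp [h]⟩
      · right
        exact ⟨h, by simp [h]⟩
  · intro w hw h
    have h' : (S.G.Adj x w ∧ ξ w + 0 = 0) ∨ (¬ S.G.Adj x w ∧ ξ w + 0 = 2) := h.2.2
    rw [hξW w hw] at h'
    rcases h' with h' | h'
    · exact absurd h'.2 (by decide)
    · exact absurd h'.2 (by decide)

end P697e97
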