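import Pool.Agent.Lib.P697e97.Base

/-!
`exists_iso`: an isomorphism from a countable family of cofinal sets of finite maps
that respect both graphs; `Rand.iso`: the countable random graph is unique; easy lemmas on `AP`.
-/

set_option autoImplicit false

namespace P697e97

theorem exists_iso {V W : Type*} [Countable V] [Countable W] (G : SimpleGraph V)
    (H : SimpleGraph W) {ι : Type*} [Countable ι] (D : ι → Finset (V × W) → Prop)
    (hdom : ∀ p, PI G H p → ∀ v, ∃ q, PI G H q ∧ p ⊆ q ∧ ∃ w, (v, w) ∈ q)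
    (hran : ∀ p, PI G H p → ∀ w, ∃ q, PI G H q ∧ p ⊆ q ∧ ∃ v, (v, w) ∈ q)
    (hD : ∀ i p, PI G H p → ∃ q, PI G H q ∧ p ⊆ q ∧ D i q) :
    ∃ k : G ≃g H, ∀ i, ∃ p, D i p ∧ ∀ a ∈ p, k a.1 = a.2 := by
  classical
  let P := {p : Finset (V × W) // PI G H p}
  obtain ⟨henc⟩ : Nonempty (Encodable (V ⊕ W ⊕ ι)) := nonempty_encodable _
  let 𝒟 : V ⊕ W ⊕ ι → Order.Cofinal P := fun j =>
    match j with
    | Sum.inl v =>
      { carrier := {q | ∃ w, (v, w) ∈ q.1}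
        isCofinal := fun p => by
          obtain ⟨q, hq, hpq, hw⟩ := hdom p.1 p.2 v
          exact ⟨⟨q, hq⟩, hw, hpq⟩ }
    | Sum.inr (Sum.inl w) =>
      { carrier := {q | ∃ v, (v, w) ∈ q.1}
        isCofinal := fun p => by
          obtain ⟨q, hq, hpq, hw⟩ := hran p.1 p.2 w
          exact ⟨⟨q, hq⟩, hw, hpq⟩ }
    | Sum.inr (Sum.inr i) =>
      { carrier := {q | D i q.1}
        isCofinal := fun p => by
          obtain ⟨q, hq, hpq, hw⟩ := hD i p.1 p.2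
          exact ⟨⟨q, hq⟩, hw, hpq⟩ }
  have hemp : PI G H (∅ : Finset (V × W)) := fun a ha => absurd ha (Finset.notMem_empty a)
  let I := Order.idealOfCofinals (⟨∅, hemp⟩ : P) 𝒟
  have htot : ∀ v, ∃ w, ∃ p ∈ I, (v, w) ∈ p.1 := by
    intro v
    obtain ⟨x, ⟨w, hw⟩, hxI⟩ :=
      Order.cofinal_meets_idealOfCofinals (⟨∅, hemp⟩ : P) 𝒟 (Sum.inl v)
    exact ⟨w, x, hxI, hw⟩
  have hsur : ∀ w, ∃ v, ∃ p ∈ I, (v, w) ∈ p.1 := by
    intro w
    obtain ⟨x, ⟨v, hv⟩, hxI⟩ :=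
      Order.cofinal_meets_idealOfCofinals (⟨∅, hemp⟩ : P) 𝒟 (Sum.inr (Sum.inl w))
    exact ⟨v, x, hxI, hv⟩
  have hcom : ∀ a b : V × W, (∃ p ∈ I, a ∈ p.1) → (∃ p ∈ I, b ∈ p.1) →
      (a.1 = b.1 ↔ a.2 = b.2) ∧ (G.Adj a.1 b.1 ↔ H.Adj a.2 b.2) := by
    rintro a b ⟨p, hp, ha⟩ ⟨q, hq, hb⟩
    obtain ⟨z, hz, hpz, hqz⟩ := I.directed p hp q hq
    exact z.2 a (hpz ha) b (hqz hb)
  choose f hf using htot
  choose g hg using hsur
  have hgf : ∀ v, g (f v) = v := fun v =>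
    ((hcom (g (f v), f v) (v, f v) (hg (f v)) (hf v)).1).2 rfl
  have hfg : ∀ w, f (g w) = w := fun w =>
    ((hcom (g w, f (g w)) (g w, w) (hf (g w)) (hg w)).1).1 rfl
  let e : V ≃ W := ⟨f, g, hgf, hfg⟩
  refine ⟨⟨e, fun {a b} => ((hcom (a, f a) (b, f b) (hf a) (hf b)).2).symm⟩, fun i => ?_⟩
  obtain ⟨x, hx, hxI⟩ :=
    Order.cofinal_meets_idealOfCofinals (⟨∅, hemp⟩ : P) 𝒟 (Sum.inr (Sum.inr i))
  refine ⟨x.1, hx, fun a ha => ?_⟩
  exact ((hcom (a.1, f a.1) a (hf a.1) ⟨x, hxI, ha⟩).1).1 rfl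

theorem randIso_ext {V W : Type*} {G : SimpleGraph V} {H : SimpleGraph W} (hH : Rand H)
    (p : Finset (V × W)) (hp : PI G H p) (v : V) :
    ∃ q, PI G H q ∧ p ⊆ q ∧ ∃ w, (v, w) ∈ q := by
  classical
  by_cases hv : ∃ w, (v, w) ∈ p
  · exact ⟨p, hp, Finset.Subset.refl p, hv⟩
  · let U := (p.filter (fun a => G.Adj v a.1)).image Prod.snd
    let U' := (p.filter (fun a => ¬ G.Adj v a.1)).image Prod.snd
    have hdis : Disjoint U U' := by
      rw [Finset.disjoint_left]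
      intro x hx hx'
      simp only [U, U', Finset.mem_image, Finset.mem_filter] at hx hx'
      obtain ⟨a, ⟨ha, haA⟩, hax⟩ := hx
      obtain ⟨b, ⟨hb, hbA⟩, hbx⟩ := hx'
      have h1 : a.1 = b.1 := ((hp a ha b hb).1).2 (hax.trans hbx.symm)
      rw [h1] at haA
      exact hbA haA
    obtain ⟨z, hzU, hzU', hadj, hnadj⟩ := hH.2 U U' hdis
    have hmem : ∀ b ∈ p, (G.Adj v b.1 ∧ b.2 ∈ U) ∨ (¬ G.Adj v b.1 ∧ b.2 ∈ U') := by
      intro b hb
      by_cases h : G.Adj v b.1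
      · exact Or.inl ⟨h, Finset.mem_image.2 ⟨b, Finset.mem_filter.2 ⟨hb, h⟩, rfl⟩⟩
      · exact Or.inr ⟨h, Finset.mem_image.2 ⟨b, Finset.mem_filter.2 ⟨hb, h⟩, rfl⟩⟩
    have hvb : ∀ b ∈ p, v ≠ b.1 := by
      intro b hb h
      exact hv ⟨b.2, by rw [h]; exact hb⟩
    have hzb : ∀ b ∈ p, z ≠ b.2 := by
      intro b hb h
      rcases hmem b hb with h1 | h1
      · exact hzU (h ▸ h1.2)
      · exact hzU' (h ▸ h1.2)
    have hA : ∀ b ∈ p, (G.Adj v b.1 ↔ H.Adj z b.2) := by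
      intro b hb
      rcases hmem b hb with h1 | h1
      · exact ⟨fun _ => hadj _ h1.2, fun _ => h1.1⟩
      · exact ⟨fun h => absurd h h1.1, fun h => absurd h (hnadj _ h1.2)⟩
    refine ⟨insert (v, z) p, ?_, Finset.subset_insert _ _, z, Finset.mem_insert_self _ _⟩
    intro a ha b hb
    rcases Finset.mem_insert.1 ha with rfl | ha
    · rcases Finset.mem_insert.1 hb with rfl | hb
      · exact ⟨⟨fun _ => rfl, fun _ => rfl⟩,
          ⟨fun h => absurd h (G.irrefl), fun h => absurd h (H.irrefl)⟩⟩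
      · exact ⟨⟨fun h => absurd h (hvb b hb), fun h => absurd h (hzb b hb)⟩, hA b hb⟩
    · rcases Finset.mem_insert.1 hb with rfl | hb
      · refine ⟨⟨fun h => absurd h.symm (hvb a ha), fun h => absurd h.symm (hzb a ha)⟩, ?_⟩
        rw [G.adj_comm, H.adj_comm]
        exact hA a ha
      · exact hp a ha b hb

theorem randIso_swap {V W : Type*} [DecidableEq V] [DecidableEq W] {G : SimpleGraph V}
    {H : SimpleGraph W} {p : Finset (V × W)} (hp : PI G H p) :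
    PI H G (p.image Prod.swap) := by
  intro a ha b hb
  obtain ⟨a', ha', rfl⟩ := Finset.mem_image.1 ha
  obtain ⟨b', hb', rfl⟩ := Finset.mem_image.1 hb
  exact ⟨(hp a' ha' b' hb').1.symm, (hp a' ha' b' hb').2.symm⟩

theorem Rand.iso {V W : Type*} {G : SimpleGraph V} {H : SimpleGraph W} (hG : Rand G)
    (hH : Rand H) : Nonempty (G ≃g H) := by
  classical
  have := hG.1
  have := hH.1
  obtain ⟨k, -⟩ := exists_iso G H (ι := Empty) (fun i _ => i.elim)
    (fun p hp v => randIso_ext hH p hp v)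
    (fun p hp w => by
      obtain ⟨q, hq, hpq, v, hv⟩ := randIso_ext hG (p.image Prod.swap) (randIso_swap hp) w
      refine ⟨q.image Prod.swap, randIso_swap hq, fun a ha => ?_, v,
        Finset.mem_image.2 ⟨(w, v), hv, rfl⟩⟩
      exact Finset.mem_image.2 ⟨a.swap, hpq (Finset.mem_image.2 ⟨a, ha, rfl⟩), Prod.swap_swap a⟩)
    (fun i => i.elim)
  exact ⟨k⟩

theorem AP.mono {M : Type*} [Monoid M] {n : ℕ} {S T : Set M} (h : AP n T) (hST : S ⊆ T) :
    AP n S := by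
  obtain ⟨C, hC, hm⟩ := h
  exact ⟨C, hC, fun m hmS => hm m (hST hmS)⟩

/-- product of two sets -/
theorem AP.mul {M : Type*} [Monoid M] {n m : ℕ} {S T : Set M} (hS : AP n S) (hT : AP m T) :
    AP (n + m) {x | ∃ s ∈ S, ∃ t ∈ T, x = s * t} := by
  obtain ⟨C, hC, hCm⟩ := hS
  obtain ⟨C', hC', hCm'⟩ := hT
  refine ⟨Fin.append C C', fun i => ?_, ?_⟩
  · refine Fin.addCases (fun j => ?_) (fun j => ?_) i
    · rw [Fin.append_left]
      exact hC j
    · rw [Fin.append_right]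
      exact hC' j
  · rintro x ⟨s, hs, t, ht, rfl⟩
    obtain ⟨c, hc, hcs⟩ := hCm s hs
    obtain ⟨c', hc', hct⟩ := hCm' t ht
    refine ⟨Fin.append c c', fun i => ?_, ?_⟩
    · refine Fin.addCases (fun j => ?_) (fun j => ?_) i
      · rw [Fin.append_left, Fin.append_left]
        exact hc j
      · rw [Fin.append_right, Fin.append_right]
        exact hc' j
    · rw [List.ofFn_fin_append, List.prod_append, hcs, hct]

theorem AP.map {M N : Type*} [Monoid M] [Monoid N] (φ : M →* N) {n : ℕ} {S : Set M}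
    (h : AP n S) : AP n (φ '' S) := by
  obtain ⟨C, hC, hCm⟩ := h
  refine ⟨fun i => (C i).map φ, ?_, ?_⟩
  · rintro i _ ⟨a, ha, rfl⟩ _ ⟨b, hb, rfl⟩
    rw [← map_mul, ← map_mul, hC i a ha b hb]
  · rintro _ ⟨s, hs, rfl⟩
    obtain ⟨c, hc, hcs⟩ := hCm s hs
    refine ⟨fun i => φ (c i), fun i => ⟨c i, hc i, rfl⟩, ?_⟩
    rw [← hcs, map_list_prod, List.map_ofFn]
    rfl

/-- one commutative subgroup -/
theorem AP.one {M : Type*} [Monoid M] (C : Submonoid M) (hC : ∀ a ∈ C, ∀ b ∈ C, a * b = b * a) :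
    AP 1 (C : Set M) := by
  refine ⟨fun _ => C, fun _ => hC, fun m hm => ⟨fun _ => m, fun _ => hm, ?_⟩⟩
  simp

end P697e97
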